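import Mathlib
import Pool.Agent.H469R2.NK.KL

open Finset
open Pool.Agent.H469R2.NK

namespace Pool.Agent.H425R3.JD

/-- differences of `√(m² + Q²n²)` -/
noncomputable def sq (m Q n : ℝ) : ℝ := √(m^2 + (Q*n)^2)

lemma sq_sq (m Q n : ℝ) : (sq m Q n)^2 = m^2 + (Q*n)^2 := by
  unfold sq; rw [Real.sq_sqrt (by positivity)]

lemma sq_nonneg' (m Q n : ℝ) : 0 ≤ sq m Q n := Real.sqrt_nonneg _

lemma sq_ge {m : ℝ} (hm : 0 ≤ m) (Q n : ℝ) : m ≤ sq m Q n := by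
  unfold sq
  apply Real.le_sqrt_of_sq_le
  nlinarith [sq_nonneg (Q*n)]

lemma sq_le {m Q n : ℝ} (hm : 0 ≤ m) (hQ : 0 ≤ Q) (hn : 0 ≤ n) : sq m Q n ≤ m + Q*n := by
  unfold sq
  rw [Real.sqrt_le_left (by positivity)]
  nlinarith [mul_nonneg hm (mul_nonneg hQ hn)]

/-- bounds for the differences -/
lemma sq_diff {m Q n : ℝ} (hm : 0 < m) (hQ : 0 ≤ Q) (hn : 0 ≤ n) :
    Q^2 * (2*n+1) / (2 * (m + Q*(n+1))) ≤ sq m Q (n+1) - sq m Q n ∧ sq m Q (n+1) - sq m Q n ≤ Q^2 * (2*n+1) / (2*m) := by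
  have h1 := sq_sq m Q n
  have h2 := sq_sq m Q (n+1)
  have h3 := sq_ge hm.le Q n
  have h4 := sq_ge hm.le Q (n+1)
  have h5 := sq_le hm.le hQ hn
  have h6 := sq_le hm.le hQ (by linarith : 0 ≤ n+1)
  set x := sq m Q n
  set y := sq m Q (n+1)
  have e : (y - x) * (y + x) = Q^2 * (2*n+1) := by nlinarith
  have hxy : 0 < y + x := by linarith
  have e2 : y - x = Q^2 * (2*n+1) / (y + x) := by
    rw [eq_div_iff hxy.ne']; exact e
  have hQn : 0 ≤ Q * n := by positivity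
  rw [e2]
  constructor
  · apply div_le_div_of_nonneg_left (by positivity) hxy
    have : Q * n ≤ Q * (n+1) := by nlinarith
    linarith
  · apply div_le_div_of_nonneg_left (by positivity) (by linarith)
    linarith

/-- convexity -/
lemma sq_conv {m Q n : ℝ} (hm : 0 < m) (hQ : 0 ≤ Q) (hn : 0 ≤ n) : sq m Q (n+1) - sq m Q n ≤ sq m Q (n+2) - sq m Q (n+1) := by
  -- triangle inequality
  have h1 := sq_sq m Q n
  have h2 := sq_sq m Q (n+1)
  have h3 := sq_sq m Q (n+2)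
  have p1 := sq_nonneg' m Q n
  have p2 := sq_nonneg' m Q (n+1)
  have p3 := sq_nonneg' m Q (n+2)
  set x := sq m Q n
  set y := sq m Q (n+1)
  set z := sq m Q (n+2)
  have hxz : m^2 + Q^2 * (n*(n+2)) ≤ x * z := by
    have h4 : (m^2 + Q^2 * (n*(n+2)))^2 ≤ (x*z)^2 := by
      rw [mul_pow, h1, h3]
      nlinarith [sq_nonneg (m*Q)]
    have h5 : 0 ≤ x * z := mul_nonneg p1 p3
    exact le_of_sq_le_sq h4 h5 |>.trans le_rfl
  have h6 : (2*y)^2 ≤ (x+z)^2 := by nlinarith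
  have h7 : 2 * y ≤ x + z := le_of_sq_le_sq h6 (by linarith)
  linarith

/-- the exponential sums over lines -/
theorem line_sum {h : ℝ} (hh : 0 < h) {Q : ℕ} (hQ : 1 ≤ Q) {δ : ℝ} (hδ : 0 < δ) (hδ1 : δ ≤ 1) (hδ2 : h * Q * δ ≤ 1/8) :
    ∃ C : ℝ, 0 < C ∧ ∃ Y0 : ℕ, ∀ Y : ℕ, Y0 ≤ Y → ∀ J : ℕ, (J:ℝ) ≤ δ * Y → ∀ i : ℕ, Y < i → i ≤ 2 * Y →
      ‖∑ j ∈ Finset.Icc 1 J, e (h * √((((Q * i + 1)^2 + (Q * j)^2 : ℕ) : ℝ)))‖ ≤ C * √(Y:ℝ) := by
  have hQ0 : (0:ℝ) < Q := by exact_mod_cast hQ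
  refine ⟨3 + 10 / (h * Q), by positivity, ⌈4 * h * Q⌉₊ + 1, fun Y hY J hJ i hi1 hi2 => ?_⟩
  have hY1 : 1 ≤ Y := by omega
  have hY0 : (0:ℝ) < Y := by exact_mod_cast hY1
  have hYh : 4 * h * Q ≤ Y := by
    refine (Nat.le_ceil _).trans ?_
    exact_mod_cast (by omega : ⌈4 * h * Q⌉₊ ≤ Y)
  set m : ℝ := Q * i + 1 with hm
  have hi1' : (Y:ℝ) ≤ i := by exact_mod_cast hi1.le
  have hi2' : (i:ℝ) ≤ 2 * Y := by exact_mod_cast hi2
  have hY1' : (1:ℝ) ≤ Y := by exact_mod_cast hY1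
  have hQ1 : (1:ℝ) ≤ Q := by exact_mod_cast hQ
  have hm1 : Q * Y ≤ m := by nlinarith
  have hm2 : m ≤ 3 * (Q * Y) := by nlinarith
  have hm0 : 0 < m := by positivity
  set x : ℕ → ℝ := fun j => h * sq m Q ((j:ℝ) + 1) with hx
  have hsum : ∑ j ∈ Finset.Icc 1 J, e (h * √((((Q * i + 1)^2 + (Q * j)^2 : ℕ) : ℝ))) = ∑ j ∈ Finset.range J, e (x j) := by
    rw [Finset.range_eq_Ico]
    have h1 := Finset.sum_Ico_add' (fun j => e (h * √((((Q * i + 1)^2 + (Q * j)^2 : ℕ) : ℝ)))) 0 J 1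
    have h2 : Finset.Ico (0+1) (J+1) = Finset.Icc 1 J := by
      ext n; simp only [Finset.mem_Icc, Finset.mem_Ico]; omega
    rw [← h2, ← h1]
    apply Finset.sum_congr rfl
    intro j _
    simp only [hx]
    unfold sq
    congr 3
    rw [hm]
    push_cast; ring
  rw [hsum]
  set s0 : ℕ := ⌈√(Y:ℝ)⌉₊ with hs0
  have hsq1 : 1 ≤ √(Y:ℝ) := by rw [Real.one_le_sqrt]; exact hY1'
  have hs1 : √(Y:ℝ) ≤ s0 := Nat.le_ceil _
  have hs2 : (s0:ℝ) ≤ √(Y:ℝ) + 1 := (Nat.ceil_lt_add_one (Real.sqrt_nonneg _)).le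
  have hC : 0 ≤ 10 / (h * Q) * √(Y:ℝ) := by positivity
  rcases Nat.lt_or_ge s0 J with hJs | hJs
  · obtain ⟨N, rfl⟩ : ∃ N, J = s0 + N := ⟨J - s0, by omega⟩
    rw [Finset.sum_range_add]
    have hb1 : ‖∑ j ∈ Finset.range s0, e (x j)‖ ≤ s0 := by
      refine (norm_sum_le _ _).trans ?_
      simp only [norm_e, Finset.sum_const, Finset.card_range, nsmul_eq_mul, mul_one, le_refl]
    have hsY : √(Y:ℝ) * √(Y:ℝ) = Y := Real.mul_self_sqrt hY0.le
    set θ : ℝ := h * Q / (5 * √(Y:ℝ)) with hθ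
    have hθ0 : 0 < θ := by positivity
    have hdiff : ∀ n < N, θ ≤ x (s0 + (n+1)) - x (s0 + n) ∧ x (s0 + (n+1)) - x (s0 + n) ≤ 1/4 := by
      intro n hn
      have hj0 : (0:ℝ) ≤ (s0:ℝ) + n := by positivity
      have hd := sq_diff (m := m) (Q := Q) (n := (s0:ℝ) + n + 1) hm0 hQ0.le (by linarith)
      have e1 : x (s0 + (n+1)) - x (s0 + n) = h * (sq m Q ((s0:ℝ) + n + 1 + 1) - sq m Q ((s0:ℝ) + n + 1)) := by
        simp only [hx]
        push_cast
        rw [mul_sub]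
        congr 3
        ring
      rw [e1]
      have hnJ : (s0:ℝ) + n + 1 ≤ δ * Y := by
        refine le_trans ?_ hJ
        exact_mod_cast (by omega : s0 + n + 1 ≤ s0 + N)
      have hnJ2 : (s0:ℝ) + n + 1 ≤ Y := hnJ.trans (by nlinarith)
      constructor
      · have h3 : θ ≤ h * (Q^2 * (2*((s0:ℝ) + n + 1)+1) / (2 * (m + Q*((s0:ℝ) + n + 1+1)))) := by
          rw [hθ, mul_div_assoc', div_le_div_iff₀ (by positivity) (by positivity)]
          have h4 : 2 * (m + Q*((s0:ℝ) + n + 1+1)) ≤ 10 * (Q * Y) := by nlinarith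
          have h5 : 2 * √(Y:ℝ) ≤ 2*((s0:ℝ) + n + 1)+1 := by
            have : (0:ℝ) ≤ n := Nat.cast_nonneg n
            linarith
          calc h * Q * (2 * (m + Q*((s0:ℝ) + n + 1+1))) ≤ h * Q * (10 * (Q * Y)) := by gcongr
            _ = h * (Q^2 * (2 * √(Y:ℝ))) * (5 * √(Y:ℝ)) := by
                rw [show (Y:ℝ) = √(Y:ℝ) * √(Y:ℝ) from hsY.symm]
                rw [Real.sqrt_mul_self (Real.sqrt_nonneg _)]; ring
            _ ≤ h * (Q^2 * (2*((s0:ℝ) + n + 1)+1)) * (5 * √(Y:ℝ)) := by gcongr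
        exact h3.trans (mul_le_mul_of_nonneg_left hd.1 hh.le)
      · have h3 : h * (Q^2 * (2*((s0:ℝ) + n + 1)+1) / (2*m)) ≤ 1/4 := by
          rw [mul_div_assoc', div_le_iff₀ (by positivity)]
          have h6 : 2*((s0:ℝ) + n + 1)+1 ≤ 2 * δ * Y + 1 := by linarith
          calc h * (Q^2 * (2*((s0:ℝ) + n + 1)+1)) ≤ h * (Q^2 * (2 * δ * Y + 1)) := by gcongr
            _ = 2 * (h * Q * δ) * (Q * Y) + (h * Q) * Q := by ring
            _ ≤ 2 * (1/8) * (Q * Y) + (Y/4) * Q := by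
                have : h * Q ≤ Y/4 := by linarith
                gcongr
            _ = 1/4 * (2 * (Q * Y)) := by ring
            _ ≤ 1/4 * (2 * m) := by gcongr
        exact (mul_le_mul_of_nonneg_left hd.2 hh.le).trans h3
    have hb2 : ‖∑ n ∈ Finset.range N, e (x (s0 + n))‖ ≤ 2 / θ := by
      apply kusmin_landau_mono (fun n => x (s0 + n)) N hθ0
      · intro n hn; exact (hdiff n hn).1
      · intro n hn
        have h1 := hdiff n hn
        linarith [h1.1, h1.2]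
      · intro n hn
        have hc := sq_conv (m := m) (Q := Q) (n := (s0:ℝ) + n + 1) hm0 hQ0.le (by positivity)
        have e1 : x (s0 + (n+1)) - x (s0 + n) = h * (sq m Q ((s0:ℝ) + n + 1 + 1) - sq m Q ((s0:ℝ) + n + 1)) := by
          simp only [hx]
          push_cast
          rw [mul_sub]
          congr 3
          ring
        have e2 : x (s0 + (n+2)) - x (s0 + (n+1)) = h * (sq m Q ((s0:ℝ) + n + 1 + 2) - sq m Q ((s0:ℝ) + n + 1 + 1)) := by
          simp only [hx]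
          push_cast
          rw [mul_sub]
          congr 3
          · ring
          · ring
        change x (s0 + (n+1)) - x (s0 + n) ≤ x (s0 + (n+2)) - x (s0 + (n+1))
        rw [e1, e2]
        exact mul_le_mul_of_nonneg_left hc hh.le
    have e3 : 2 / θ = 10 / (h * Q) * √(Y:ℝ) := by
      rw [hθ]; field_simp; ring
    rw [e3] at hb2
    refine (norm_add_le _ _).trans ?_
    nlinarith
  · have hb1 : ‖∑ j ∈ Finset.range J, e (x j)‖ ≤ J := by
      refine (norm_sum_le _ _).trans ?_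
      simp only [norm_e, Finset.sum_const, Finset.card_range, nsmul_eq_mul, mul_one, le_refl]
    have hJ2 : (J:ℝ) ≤ s0 := by exact_mod_cast hJs
    nlinarith

end Pool.Agent.H425R3.JD
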