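import Mathlib

open Finset

namespace Pool.Agent.H425R3.JD

/-- the numbers of the family -/
def NN (Q i j : ℕ) : ℕ := (Q * i + 1)^2 + (Q * j)^2

lemma class_card {d Y : ℕ} (hd : 0 < d) {S : Finset ℕ} (hS : S ⊆ Ioc Y (2*Y))
    (h : ∀ a ∈ S, ∀ b ∈ S, a % d = b % d) : S.card ≤ Y / d + 2 := by
  have h1 : S.card ≤ (Icc (Y/d) (2*Y/d)).card := by
    apply Finset.card_le_card_of_injOn (fun a => a / d)
    · intro a ha
      have := Finset.mem_Ioc.mp (hS ha)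
      simp only [Finset.coe_Icc, Set.mem_Icc]
      exact ⟨Nat.div_le_div_right this.1.le, Nat.div_le_div_right this.2⟩
    · intro a ha b hb hab
      have h2 := h a ha b hb
      have h3 := Nat.div_add_mod a d
      have h4 := Nat.div_add_mod b d
      simp only at hab
      rw [hab, h2] at h3
      omega
  rw [Nat.card_Icc] at h1
  have h2 : 2*Y/d ≤ 2*(Y/d) + 1 := by
    have h3 := Nat.div_add_mod Y d
    have h4 := Nat.mod_lt Y hd
    apply Nat.le_of_lt_succ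
    rw [Nat.div_lt_iff_lt_mul hd]
    nlinarith
  omega

lemma prime_absurd {p Q i j : ℕ} (hp : p.Prime) (hpQ : p ∣ Q) (h : p ∣ NN Q i j) : False := by
  unfold NN at h
  have h1 : p ∣ (Q * j)^2 := dvd_pow (hpQ.mul_right j) two_ne_zero
  have h2 : p ∣ (Q * i + 1)^2 := (Nat.dvd_add_left h1).mp h
  have h3 : p ∣ Q * i + 1 := hp.dvd_of_dvd_pow h2
  have h4 : p ∣ 1 := (Nat.dvd_add_right (hpQ.mul_right i)).mp h3
  exact hp.one_lt.ne' (Nat.dvd_one.mp h4)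

lemma line_card {p Q Y j : ℕ} (hp : p.Prime) (hp2 : p ≠ 2) (hpQ : ¬ p ∣ Q) (hj : ¬ p ∣ j) :
    ((Ioc Y (2*Y)).filter (fun i => p * p ∣ NN Q i j)).card ≤ 2 * (Y/(p*p) + 2) := by
  classical
  set S := (Ioc Y (2*Y)).filter (fun i => p * p ∣ NN Q i j) with hS
  rcases S.eq_empty_or_nonempty with h0 | ⟨i0, hi0⟩
  · rw [h0]; simp
  have hpp : 0 < p * p := Nat.mul_pos hp.pos hp.pos
  have hpi : Prime (p:ℤ) := Nat.prime_iff_prime_int.mp hp
  have hmem : ∀ i ∈ S, ((p:ℤ) * p) ∣ ((Q:ℤ) * i + 1)^2 + ((Q:ℤ) * j)^2 := by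
    intro i hi
    have := (Finset.mem_filter.mp hi).2
    unfold NN at this
    exact_mod_cast this
  have hQc : IsCoprime ((p:ℤ) * p) (Q:ℤ) := by
    have : IsCoprime (p:ℤ) (Q:ℤ) := by
      rw [Nat.isCoprime_iff_coprime]
      exact (Nat.Prime.coprime_iff_not_dvd hp).mpr hpQ
    exact this.mul_left this
  have hnd : ∀ i ∈ S, ¬ (p:ℤ) ∣ (Q:ℤ) * i + 1 := by
    intro i hi h
    have h1 : (p:ℤ) ∣ ((Q:ℤ) * i + 1)^2 + ((Q:ℤ) * j)^2 := (Dvd.intro _ rfl).trans (hmem i hi)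
    have h2 : (p:ℤ) ∣ ((Q:ℤ) * j)^2 := (dvd_add_right (dvd_pow h two_ne_zero)).mp h1
    have h3 : (p:ℤ) ∣ (Q:ℤ) * j := hpi.dvd_of_dvd_pow h2
    rcases hpi.dvd_or_dvd h3 with h4 | h4
    · exact hpQ (by exact_mod_cast h4)
    · exact hj (by exact_mod_cast h4)
  have hsplit : ∀ i ∈ S, ((p:ℤ) * p) ∣ ((i:ℤ) - i0) ∨ ((p:ℤ) * p) ∣ ((Q:ℤ) * (i + i0) + 2) := by
    intro i hi
    have h1 := dvd_sub (hmem i hi) (hmem i0 hi0)
    have h2 : ((Q:ℤ) * i + 1)^2 + ((Q:ℤ) * j)^2 - (((Q:ℤ) * i0 + 1)^2 + ((Q:ℤ) * j)^2) =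
        Q * (((i:ℤ) - i0) * ((Q:ℤ) * (i + i0) + 2)) := by ring
    rw [h2] at h1
    have h3 := hQc.dvd_of_dvd_mul_left h1
    by_cases h4 : (p:ℤ) ∣ ((i:ℤ) - i0)
    · left
      have h5 : ¬ (p:ℤ) ∣ ((Q:ℤ) * (i + i0) + 2) := by
        intro h6
        have h7 : (Q:ℤ) * (i + i0) + 2 = Q * ((i:ℤ) - i0) + 2 * ((Q:ℤ) * i0 + 1) := by ring
        rw [h7] at h6
        have h8 := (dvd_add_right (h4.mul_left (Q:ℤ))).mp h6
        rcases hpi.dvd_or_dvd h8 with h9 | h9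
        · have : p ∣ 2 := by exact_mod_cast h9
          exact hp2 ((Nat.prime_dvd_prime_iff_eq hp Nat.prime_two).mp this)
        · exact hnd i0 hi0 h9
      have h6 : IsCoprime ((p:ℤ) * p) ((Q:ℤ) * (i + i0) + 2) := by
        have := (Prime.coprime_iff_not_dvd hpi).mpr h5
        exact this.mul_left this
      exact h6.dvd_of_dvd_mul_right h3
    · right
      have h6 : IsCoprime ((p:ℤ) * p) ((i:ℤ) - i0) := by
        have := (Prime.coprime_iff_not_dvd hpi).mpr h4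
        exact this.mul_left this
      exact h6.dvd_of_dvd_mul_left h3
  set S1 := S.filter (fun i : ℕ => ((p:ℤ) * p) ∣ ((i:ℤ) - i0)) with hS1
  set S2 := S.filter (fun i : ℕ => ((p:ℤ) * p) ∣ ((Q:ℤ) * (i + i0) + 2)) with hS2
  have hsub : S ⊆ S1 ∪ S2 := by
    intro i hi
    rw [Finset.mem_union]
    rcases hsplit i hi with h | h
    · left; rw [hS1]; exact Finset.mem_filter.mpr ⟨hi, h⟩
    · right; rw [hS2]; exact Finset.mem_filter.mpr ⟨hi, h⟩
  have hSI : S ⊆ Ioc Y (2*Y) := Finset.filter_subset _ _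
  have hmod : ∀ a b : ℕ, ((p:ℤ) * p) ∣ ((a:ℤ) - b) → a % (p*p) = b % (p*p) := by
    intro a b h
    have h1 : (b:ℤ) ≡ a [ZMOD ((p*p : ℕ) : ℤ)] := by
      rw [Int.modEq_iff_dvd]; push_cast; exact h
    exact ((Int.natCast_modEq_iff.mp h1).symm : a ≡ b [MOD (p*p)])
  have c1 : S1.card ≤ Y/(p*p) + 2 := by
    apply class_card hpp ((Finset.filter_subset _ _).trans hSI)
    intro a ha b hb
    apply hmod
    have h1 := (Finset.mem_filter.mp ha).2
    have h2 := (Finset.mem_filter.mp hb).2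
    have := dvd_sub h1 h2
    rwa [sub_sub_sub_cancel_right] at this
  have c2 : S2.card ≤ Y/(p*p) + 2 := by
    apply class_card hpp ((Finset.filter_subset _ _).trans hSI)
    intro a ha b hb
    apply hmod
    have h1 := (Finset.mem_filter.mp ha).2
    have h2 := (Finset.mem_filter.mp hb).2
    have := dvd_sub h1 h2
    have e : (Q:ℤ) * (a + i0) + 2 - ((Q:ℤ) * (b + i0) + 2) = Q * ((a:ℤ) - b) := by ring
    rw [e] at this
    exact hQc.dvd_of_dvd_mul_left this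
  calc S.card ≤ (S1 ∪ S2).card := Finset.card_le_card hsub
    _ ≤ S1.card + S2.card := Finset.card_union_le _ _
    _ ≤ _ := by omega

lemma lin_card {p Q Y : ℕ} (hp : p.Prime) (hpQ : ¬ p ∣ Q) :
    ((Ioc Y (2*Y)).filter (fun i => p ∣ Q * i + 1)).card ≤ Y/p + 2 := by
  apply class_card hp.pos (Finset.filter_subset _ _)
  intro a ha b hb
  have h1 := (Finset.mem_filter.mp ha).2
  have h2 := (Finset.mem_filter.mp hb).2
  have h3 : Q * a + 1 ≡ Q * b + 1 [MOD p] := by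
    unfold Nat.ModEq
    rw [Nat.mod_eq_zero_of_dvd h1, Nat.mod_eq_zero_of_dvd h2]
  have h4 : Q * a ≡ Q * b [MOD p] := Nat.ModEq.add_right_cancel' 1 h3
  exact Nat.ModEq.cancel_left_of_coprime ((Nat.Prime.coprime_iff_not_dvd hp).mpr hpQ) h4

/-- the number of pairs with `p² ∣ N` -/
lemma p_card {p Q Y J : ℕ} (hp : p.Prime) (hp2 : p ≠ 2) (hpQ : ¬ p ∣ Q) (hJ : J ≤ Y) :
    ((((Ioc Y (2*Y)) ×ˢ (Icc 1 J)).filter (fun ij : ℕ × ℕ => p * p ∣ NN Q ij.1 ij.2)).card : ℝ) ≤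
      5 * (Y * J) * ((p:ℝ)^2)⁻¹ + 4 * J := by
  classical
  have hp0 : (0:ℝ) < p := by exact_mod_cast hp.pos
  set B := (((Ioc Y (2*Y)) ×ˢ (Icc 1 J)).filter (fun ij : ℕ × ℕ => p * p ∣ NN Q ij.1 ij.2)) with hB
  set B1 := ((Ioc Y (2*Y)).filter (fun i => p ∣ Q * i + 1)) ×ˢ ((Ioc 0 J).filter (fun j => p ∣ j)) with hB1
  set B2 := (Icc 1 J).biUnion (fun j => if p ∣ j then ∅ else ((Ioc Y (2*Y)).filter (fun i => p * p ∣ NN Q i j)).image (fun i => (i, j))) with hB2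
  have hsub : B ⊆ B1 ∪ B2 := by
    rintro ⟨i, j⟩ hij
    rw [hB, Finset.mem_filter, Finset.mem_product] at hij
    obtain ⟨⟨h1, h2⟩, h3⟩ := hij
    simp only at h1 h2 h3
    rw [Finset.mem_union]
    by_cases hj : p ∣ j
    · left
      rw [hB1, Finset.mem_product, Finset.mem_filter, Finset.mem_filter]
      refine ⟨⟨h1, ?_⟩, ?_, hj⟩
      · have h4 : p ∣ NN Q i j := (Dvd.intro _ rfl).trans h3
        unfold NN at h4
        have h5 : p ∣ (Q * j)^2 := dvd_pow (hj.mul_left Q) two_ne_zero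
        exact hp.dvd_of_dvd_pow ((Nat.dvd_add_left h5).mp h4)
      · rw [Finset.mem_Icc] at h2
        rw [Finset.mem_Ioc]; simp only; omega
    · right
      rw [hB2, Finset.mem_biUnion]
      refine ⟨j, h2, ?_⟩
      rw [if_neg hj, Finset.mem_image]
      exact ⟨i, Finset.mem_filter.mpr ⟨h1, h3⟩, rfl⟩
  have c1 : ((B1.card : ℕ) : ℝ) ≤ 3 * (Y * J) * ((p:ℝ)^2)⁻¹ := by
    rw [hB1, Finset.card_product, Nat.Ioc_filter_dvd_card_eq_div]
    push_cast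
    rcases Nat.lt_or_ge J p with h | h
    · rw [Nat.div_eq_of_lt h]
      simp only [Nat.cast_zero, mul_zero]
      positivity
    · have h1 : (((Ioc Y (2*Y)).filter (fun i => p ∣ Q * i + 1)).card : ℝ) ≤ 3 * Y / p := by
        have h2 := lin_card (Y := Y) hp hpQ
        have h3 : ((Y/p + 2 : ℕ) : ℝ) ≤ 3 * Y / p := by
          push_cast
          have h4 : ((Y/p : ℕ) : ℝ) ≤ Y / p := Nat.cast_div_le
          have h5 : (1:ℝ) ≤ Y / p := by
            rw [le_div_iff₀ hp0, one_mul]; exact_mod_cast h.trans hJ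
          have h6 : 3 * (Y:ℝ) / p = Y/p + 2 * (Y/p) := by ring
          rw [h6]; linarith
        exact le_trans (by exact_mod_cast h2) h3
      have h7 : ((J/p : ℕ) : ℝ) ≤ J / p := Nat.cast_div_le
      calc _ ≤ 3 * (Y:ℝ) / p * (J / p) := by gcongr
        _ = _ := by field_simp
  have c2 : ((B2.card : ℕ) : ℝ) ≤ 2 * (Y * J) * ((p:ℝ)^2)⁻¹ + 4 * J := by
    have h1 : B2.card ≤ ∑ j ∈ Icc 1 J, 2 * (Y/(p*p) + 2) := by
      rw [hB2]
      refine Finset.card_biUnion_le.trans (Finset.sum_le_sum (fun j _ => ?_))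
      by_cases hj : p ∣ j
      · rw [if_pos hj]; simp
      · rw [if_neg hj]
        exact Finset.card_image_le.trans (line_card hp hp2 hpQ hj)
    rw [Finset.sum_const, Nat.card_Icc, smul_eq_mul, Nat.add_sub_cancel] at h1
    have h2 : ((B2.card : ℕ) : ℝ) ≤ J * (2 * (((Y/(p*p) : ℕ) : ℝ) + 2)) := by exact_mod_cast h1
    have h3 : ((Y/(p*p) : ℕ) : ℝ) ≤ Y * ((p:ℝ)^2)⁻¹ := by
      have : ((Y/(p*p) : ℕ) : ℝ) ≤ Y / ((p * p : ℕ) : ℝ) := Nat.cast_div_le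
      rw [div_eq_mul_inv] at this
      have e : ((p * p : ℕ) : ℝ) = (p:ℝ)^2 := by push_cast; ring
      rw [e] at this
      exact this
    calc _ ≤ J * (2 * (((Y/(p*p) : ℕ) : ℝ) + 2)) := h2
      _ ≤ J * (2 * (Y * ((p:ℝ)^2)⁻¹ + 2)) := by gcongr
      _ = _ := by ring
  have h1 : B.card ≤ B1.card + B2.card := (Finset.card_le_card hsub).trans (Finset.card_union_le _ _)
  have h2 : ((B.card : ℕ) : ℝ) ≤ B1.card + B2.card := by exact_mod_cast h1
  linarith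

/-- primes have density zero -/
theorem pc_le_eps {δ : ℝ} (hδ : 0 < δ) :
    ∃ Y : ℕ, ∀ n : ℕ, Y ≤ n → (Nat.primeCounting n : ℝ) ≤ δ * n := by
  have h1 := Chebyshev.eventually_primeCounting_le (ε := 1) one_pos
  have h2 : ∀ᶠ x : ℝ in Filter.atTop, (Real.log 4 + 1) / δ ≤ Real.log x :=
    Real.tendsto_log_atTop.eventually_ge_atTop _
  have h3 : ∀ᶠ x : ℝ in Filter.atTop, (Nat.primeCounting ⌊x⌋₊ : ℝ) ≤ δ * x := by
    filter_upwards [h1, h2, Filter.eventually_gt_atTop (1:ℝ)] with x hx1 hx2 hx3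
    refine hx1.trans ?_
    have hlog : 0 < Real.log x := Real.log_pos hx3
    rw [div_le_iff₀ hδ] at hx2
    rw [div_le_iff₀ hlog]
    nlinarith
  obtain ⟨X, hX⟩ := Filter.eventually_atTop.mp h3
  refine ⟨⌈X⌉₊, fun n hn => ?_⟩
  have := hX n (Nat.ceil_le.mp hn)
  simpa using this

/-- few values are not squarefree -/
theorem bad_small {z : ℕ} (hz : 2 ≤ z) : ∃ Y0 : ℕ, ∀ Y : ℕ, Y0 ≤ Y → ∀ J : ℕ, J ≤ Y →
    ((((Ioc Y (2*Y)) ×ˢ (Icc 1 J)).filter (fun ij : ℕ × ℕ => ¬ Squarefree (NN z.factorial ij.1 ij.2))).card : ℝ) ≤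
      6 / z * (Y * J) := by
  classical
  set Q := z.factorial with hQ
  have hQ1 : 1 ≤ Q := Nat.factorial_pos z
  have hQ0 : (0:ℝ) < Q := by exact_mod_cast hQ1
  have hz0 : (0:ℝ) < z := by exact_mod_cast (by omega : 0 < z)
  obtain ⟨Y1, hY1⟩ := pc_le_eps (δ := 1/(16 * Q * z)) (by positivity)
  refine ⟨Y1 + z + 1, fun Y hY J hJ => ?_⟩
  have hYpos : 1 ≤ Y := by omega
  set P := (Ioc z (4*Q*Y)).filter Nat.Prime with hP
  have hsub : (((Ioc Y (2*Y)) ×ˢ (Icc 1 J)).filter (fun ij : ℕ × ℕ => ¬ Squarefree (NN Q ij.1 ij.2))) ⊆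
      P.biUnion (fun p => ((Ioc Y (2*Y)) ×ˢ (Icc 1 J)).filter (fun ij : ℕ × ℕ => p * p ∣ NN Q ij.1 ij.2)) := by
    rintro ⟨i, j⟩ hij
    rw [Finset.mem_filter, Nat.squarefree_iff_prime_squarefree] at hij
    obtain ⟨h1, h2⟩ := hij
    push Not at h2
    obtain ⟨p, hp, hpd⟩ := h2
    rw [Finset.mem_biUnion]
    refine ⟨p, ?_, Finset.mem_filter.mpr ⟨h1, hpd⟩⟩
    rw [hP, Finset.mem_filter, Finset.mem_Ioc]
    refine ⟨⟨?_, ?_⟩, hp⟩
    · by_contra hcon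
      push Not at hcon
      exact prime_absurd hp (hp.dvd_factorial.mpr hcon) ((Dvd.intro _ rfl).trans hpd)
    · rw [Finset.mem_product, Finset.mem_Ioc, Finset.mem_Icc] at h1
      simp only at h1
      by_contra hcon
      push Not at hcon
      have h3 : p * p ≤ NN Q i j := Nat.le_of_dvd (by unfold NN; positivity) hpd
      have h4 : NN Q i j ≤ (4*Q*Y)^2 := by
        unfold NN
        have a1 : Q * i + 1 ≤ 3 * Q * Y := by
          have : Q * i ≤ Q * (2 * Y) := Nat.mul_le_mul_left _ h1.1.2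
          have : 1 ≤ Q * Y := Nat.mul_pos hQ1 hYpos
          nlinarith
        have a2 : Q * j ≤ Q * Y := Nat.mul_le_mul_left _ (h1.2.2.trans hJ)
        calc (Q * i + 1)^2 + (Q * j)^2 ≤ (3 * Q * Y)^2 + (Q * Y)^2 :=
              Nat.add_le_add (Nat.pow_le_pow_left a1 2) (Nat.pow_le_pow_left a2 2)
          _ ≤ _ := by nlinarith [Nat.zero_le (Q*Y)]
      have h5 : (4*Q*Y)^2 < p * p := by rw [sq]; exact Nat.mul_self_lt_mul_self hcon
      omega
  have h1 := (Finset.card_le_card hsub).trans Finset.card_biUnion_le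
  have h2 : ((((Ioc Y (2*Y)) ×ˢ (Icc 1 J)).filter (fun ij : ℕ × ℕ => ¬ Squarefree (NN Q ij.1 ij.2))).card : ℝ) ≤
      ∑ p ∈ P, (5 * (Y * J) * ((p:ℝ)^2)⁻¹ + 4 * J) := by
    have h1' : ((((Ioc Y (2*Y)) ×ˢ (Icc 1 J)).filter (fun ij : ℕ × ℕ => ¬ Squarefree (NN Q ij.1 ij.2))).card : ℝ) ≤
        ∑ p ∈ P, ((((Ioc Y (2*Y)) ×ˢ (Icc 1 J)).filter (fun ij : ℕ × ℕ => p * p ∣ NN Q ij.1 ij.2)).card : ℝ) := by
      exact_mod_cast h1
    refine h1'.trans ?_
    apply Finset.sum_le_sum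
    intro p hp
    rw [hP, Finset.mem_filter, Finset.mem_Ioc] at hp
    apply p_card hp.2 (by omega) _ hJ
    intro hd
    have := (hp.2.dvd_factorial).mp hd
    omega
  refine h2.trans ?_
  rw [Finset.sum_add_distrib, ← Finset.mul_sum, Finset.sum_const, nsmul_eq_mul]
  have hle : z ≤ 4*Q*Y := by
    have : Y ≤ 4 * Q * Y := by nlinarith
    omega
  have h3 : ∑ p ∈ P, ((p:ℝ)^2)⁻¹ ≤ (z:ℝ)⁻¹ := by
    have h4 := sum_Ioc_inv_sq_le_sub (α := ℝ) (by omega : z ≠ 0) hle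
    refine le_trans (Finset.sum_le_sum_of_subset_of_nonneg (Finset.filter_subset _ _) (fun _ _ _ => by positivity)) (h4.trans ?_)
    have : (0:ℝ) ≤ ((4*Q*Y : ℕ) : ℝ)⁻¹ := by positivity
    linarith
  have h4 : (P.card : ℝ) ≤ 1/(16 * Q * z) * (4 * Q * Y) := by
    have h5 := hY1 (4*Q*Y) (by
      have : Y ≤ 4 * Q * Y := by nlinarith
      omega)
    have h6 : P.card ≤ Nat.primeCounting (4*Q*Y) := by
      rw [Nat.primeCounting, Nat.primeCounting', Nat.count_eq_card_filter_range]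
      apply Finset.card_le_card
      intro p hp
      rw [hP, Finset.mem_filter, Finset.mem_Ioc] at hp
      rw [Finset.mem_filter, Finset.mem_range]
      exact ⟨by omega, hp.2⟩
    calc (P.card : ℝ) ≤ Nat.primeCounting (4*Q*Y) := by exact_mod_cast h6
      _ ≤ _ := h5
      _ = _ := by push_cast; ring
  have hJ0 : (0:ℝ) ≤ J := Nat.cast_nonneg _
  have hY0 : (0:ℝ) ≤ Y := Nat.cast_nonneg _
  calc 5 * ((Y:ℝ) * J) * ∑ p ∈ P, ((p:ℝ)^2)⁻¹ + P.card * (4 * J) ≤ 5 * ((Y:ℝ) * J) * (z:ℝ)⁻¹ + (1/(16 * Q * z) * (4 * Q * Y)) * (4 * J) := by gcongr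
    _ = 6 / z * (Y * J) := by field_simp; ring

end Pool.Agent.H425R3.JD
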