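import Mathlib
import Pool.Agent.H425R3.JD.A1
import Pool.Agent.H425R3.JD.A2

open Finset
open Pool.Agent.H469R2.NK

namespace Pool.Agent.H425R3.JD

variable {ι : Type*} [Fintype ι]

lemma norm_sq_expand (u x : ι → ℝ) : ‖∑ l, (u l : ℂ) * e (x l)‖^2 = ∑ a, ∑ b, u a * u b * (e (x a - x b)).re := by
  have h1 : ((‖∑ l, (u l : ℂ) * e (x l)‖^2 : ℝ) : ℂ) = (∑ l, (u l : ℂ) * e (x l)) * (starRingEnd ℂ) (∑ l, (u l : ℂ) * e (x l)) := by
    rw [Complex.mul_conj, Complex.normSq_eq_norm_sq]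
  have h2 : (∑ l, (u l : ℂ) * e (x l)) * (starRingEnd ℂ) (∑ l, (u l : ℂ) * e (x l)) = ∑ a, ∑ b, ((u a * u b : ℝ) : ℂ) * e (x a - x b) := by
    rw [map_sum, Finset.sum_mul_sum]
    apply Finset.sum_congr rfl
    intro a _
    apply Finset.sum_congr rfl
    intro b _
    rw [map_mul, Complex.conj_ofReal, conj_e, sub_eq_add_neg, e_add]
    push_cast; ring
  rw [h2] at h1
  have h3 := congrArg Complex.re h1
  rw [Complex.ofReal_re] at h3
  rw [h3, Complex.re_sum]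
  apply Finset.sum_congr rfl
  intro a _
  rw [Complex.re_sum]
  apply Finset.sum_congr rfl
  intro b _
  rw [Complex.re_ofReal_mul]

/-- the good pairs -/
noncomputable def TT (Q Y J : ℕ) : Finset (ℕ × ℕ) := by
  classical
  exact ((Ioc Y (2*Y)) ×ˢ (Icc 1 J)).filter (fun ij : ℕ × ℕ => Squarefree (NN Q ij.1 ij.2))

theorem fam_lower {X : ι → ℝ} (hX : Function.Injective X) : ∃ (Q : ℕ) (δ : ℝ), 1 ≤ Q ∧ 0 < δ ∧ δ ≤ 1 ∧
    ∃ Y0 : ℕ, ∀ Y : ℕ, Y0 ≤ Y → ∀ u : ι → ℝ,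
      (1/4) * δ * (Y:ℝ)^2 * ∑ a, u a ^2 ≤ ∑ ij ∈ TT Q Y ⌊δ * Y⌋₊, ‖∑ l, (u l : ℂ) * e (X l * √(NN Q ij.1 ij.2 : ℕ))‖^2 := by
  classical
  set k : ℕ := Fintype.card ι with hk
  obtain ⟨z, hz⟩ : ∃ z : ℕ, z = 24 * (k + 1) := ⟨_, rfl⟩
  obtain ⟨Q, hQ⟩ : ∃ Q : ℕ, Q = z.factorial := ⟨_, rfl⟩
  have hQ1 : 1 ≤ Q := by rw [hQ]; exact Nat.factorial_pos z
  have hQ0 : (0:ℝ) < Q := by exact_mod_cast hQ1
  set hmax : ℝ := ∑ a, ∑ b, |X a - X b| with hhm
  have hmax0 : 0 ≤ hmax := Finset.sum_nonneg (fun a _ => Finset.sum_nonneg (fun b _ => abs_nonneg _))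
  have hle : ∀ a b, |X a - X b| ≤ hmax := by
    intro a b
    calc |X a - X b| ≤ ∑ b, |X a - X b| := Finset.single_le_sum (f := fun b => |X a - X b|) (fun _ _ => abs_nonneg _) (Finset.mem_univ b)
      _ ≤ _ := Finset.single_le_sum (f := fun a => ∑ b, |X a - X b|) (fun _ _ => Finset.sum_nonneg (fun b _ => abs_nonneg _)) (Finset.mem_univ a)
  set δ : ℝ := 1 / (8 * Q * (hmax + 1)) with hδ
  have hδ0 : 0 < δ := by positivity
  have hQ1' : (1:ℝ) ≤ Q := by exact_mod_cast hQ1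
  have hδ1 : δ ≤ 1 := by
    rw [hδ, div_le_one (by positivity)]
    nlinarith
  have hline : ∀ a b : ι, ∃ C : ℝ, 0 < C ∧ ∃ Y0 : ℕ, a ≠ b → ∀ Y : ℕ, Y0 ≤ Y → ∀ J : ℕ, (J:ℝ) ≤ δ * Y → ∀ i : ℕ, Y < i → i ≤ 2 * Y →
      ‖∑ j ∈ Finset.Icc 1 J, e (X a * √(NN Q i j : ℕ) - X b * √(NN Q i j : ℕ))‖ ≤ C * √(Y:ℝ) := by
    intro a b
    by_cases hab : a = b
    · exact ⟨1, one_pos, 0, fun h => absurd hab h⟩
    have hne : X a - X b ≠ 0 := sub_ne_zero.mpr (fun h => hab (hX h))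
    obtain ⟨C, hC, Y0, h⟩ := line_sum (h := |X a - X b|) (abs_pos.mpr hne) hQ1 hδ0 hδ1 (by
      calc |X a - X b| * Q * δ ≤ (hmax + 1) * Q * δ := by
            have := hle a b
            gcongr
            linarith
        _ = 1/8 := by rw [hδ]; field_simp
        _ ≤ 1/8 := le_rfl)
    refine ⟨C, hC, Y0, fun _ Y hY J hJ i hi1 hi2 => ?_⟩
    have h1 := h Y hY J hJ i hi1 hi2
    rcases le_total 0 (X a - X b) with hs | hs
    · rw [abs_of_nonneg hs] at h1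
      refine le_trans (le_of_eq ?_) h1
      congr 1
      apply Finset.sum_congr rfl
      intro j _
      unfold NN
      congr 1; ring
    · rw [abs_of_nonpos hs] at h1
      refine le_trans (le_of_eq ?_) h1
      rw [← Complex.norm_conj, map_sum]
      congr 1
      apply Finset.sum_congr rfl
      intro j _
      unfold NN
      rw [conj_e]
      congr 1; ring
  choose C hC Yab hYab using hline
  set CC : ℝ := ∑ a, ∑ b, C a b with hCC
  have hCC0 : 0 ≤ CC := Finset.sum_nonneg (fun a _ => Finset.sum_nonneg (fun b _ => (hC a b).le))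
  have hCle : ∀ a b, C a b ≤ CC := by
    intro a b
    calc C a b ≤ ∑ b, C a b := Finset.single_le_sum (f := fun b => C a b) (fun b _ => (hC a b).le) (Finset.mem_univ b)
      _ ≤ _ := Finset.single_le_sum (f := fun a => ∑ b, C a b) (fun a _ => Finset.sum_nonneg (fun b _ => (hC a b).le)) (Finset.mem_univ a)
  obtain ⟨Y1, hY1⟩ := bad_small (z := z) (by omega)
  rw [← hQ] at hY1
  set Y2 : ℕ := Finset.univ.sup (fun a => Finset.univ.sup (fun b => Yab a b)) with hY2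
  have hYle : ∀ a b, Yab a b ≤ Y2 := fun a b =>
    (Finset.le_sup (f := fun b => Yab a b) (Finset.mem_univ b)).trans (Finset.le_sup (f := fun a => Finset.univ.sup (fun b => Yab a b)) (Finset.mem_univ a))
  refine ⟨Q, δ, hQ1, hδ0, hδ1, Y1 + Y2 + ⌈2/δ⌉₊ + ⌈(8 * k * CC / δ)^2⌉₊ + 1, fun Y hY u => ?_⟩
  set J : ℕ := ⌊δ * Y⌋₊ with hJ
  have hY0 : (0:ℝ) < Y := by exact_mod_cast (by omega : 0 < Y)
  have hJ1 : (J:ℝ) ≤ δ * Y := Nat.floor_le (by positivity)
  have hJY : J ≤ Y := by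
    have : (J:ℝ) ≤ Y := hJ1.trans (by nlinarith)
    exact_mod_cast this
  have hJ2 : δ * Y / 2 ≤ J := by
    have h1 : δ * Y < J + 1 := Nat.lt_floor_add_one _
    have h2 : 2 / δ ≤ Y := (Nat.le_ceil _).trans (by exact_mod_cast (by omega : ⌈2/δ⌉₊ ≤ Y))
    rw [div_le_iff₀ hδ0] at h2
    linarith
  have hJ0 : (0:ℝ) ≤ J := Nat.cast_nonneg _
  set Bx := (Ioc Y (2*Y)) ×ˢ (Icc 1 J) with hBx
  set bad := Bx.filter (fun ij : ℕ × ℕ => ¬ Squarefree (NN Q ij.1 ij.2)) with hbad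
  have hbadc : (bad.card : ℝ) ≤ 6 / z * (Y * J) := by
    refine le_trans (le_of_eq ?_) (hY1 Y (by omega) J hJY)
    congr 2
  have hz0 : (0:ℝ) < z := by rw [hz]; positivity
  have hk0 : (0:ℝ) ≤ k := Nat.cast_nonneg k
  have hzk : ((k:ℝ) + 1) * (6 / z) = 1/4 := by
    rw [hz]; push_cast; field_simp; norm_num
  have hTdef : TT Q Y J = Bx.filter (fun ij : ℕ × ℕ => Squarefree (NN Q ij.1 ij.2)) := by
    unfold TT
    apply Finset.filter_congr_decidable
  have hcard : (TT Q Y J).card + bad.card = Y * J := by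
    rw [hTdef, hbad, Finset.card_filter_add_card_filter_not, hBx, Finset.card_product, Nat.card_Ioc, Nat.card_Icc]
    congr 1
    omega
  have hcard' : ((TT Q Y J).card : ℝ) + bad.card = Y * J := by exact_mod_cast hcard
  -- the exponential sums
  set R : ℝ := CC * √(Y:ℝ) * Y + 6 / z * (Y * J) with hR
  have hR0 : 0 ≤ R := by positivity
  have hexp : ∀ a b, a ≠ b → ‖∑ ij ∈ TT Q Y J, e (X a * √(NN Q ij.1 ij.2 : ℕ) - X b * √(NN Q ij.1 ij.2 : ℕ))‖ ≤ R := by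
    intro a b hab
    have h1 : ∑ ij ∈ TT Q Y J, e (X a * √(NN Q ij.1 ij.2 : ℕ) - X b * √(NN Q ij.1 ij.2 : ℕ)) =
        ∑ ij ∈ Bx, e (X a * √(NN Q ij.1 ij.2 : ℕ) - X b * √(NN Q ij.1 ij.2 : ℕ)) -
        ∑ ij ∈ bad, e (X a * √(NN Q ij.1 ij.2 : ℕ) - X b * √(NN Q ij.1 ij.2 : ℕ)) := by
      rw [hTdef, hbad, eq_sub_iff_add_eq, Finset.sum_filter_add_sum_filter_not]
    have h2 : ‖∑ ij ∈ bad, e (X a * √(NN Q ij.1 ij.2 : ℕ) - X b * √(NN Q ij.1 ij.2 : ℕ))‖ ≤ bad.card := by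
      refine (norm_sum_le _ _).trans ?_
      simp only [norm_e, Finset.sum_const, nsmul_eq_mul, mul_one, le_refl]
    have h3 : ‖∑ ij ∈ Bx, e (X a * √(NN Q ij.1 ij.2 : ℕ) - X b * √(NN Q ij.1 ij.2 : ℕ))‖ ≤ CC * √(Y:ℝ) * Y := by
      rw [hBx, Finset.sum_product]
      refine (norm_sum_le _ _).trans ?_
      refine (Finset.sum_le_sum (g := fun _ => CC * √(Y:ℝ)) (fun i hi => ?_)).trans (le_of_eq ?_)
      · rw [Finset.mem_Ioc] at hi
        refine (hYab a b hab Y ((hYle a b).trans (by omega)) J hJ1 i hi.1 hi.2).trans ?_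
        exact mul_le_mul_of_nonneg_right (hCle a b) (Real.sqrt_nonneg _)
      · rw [Finset.sum_const, Nat.card_Ioc, nsmul_eq_mul]
        have : 2 * Y - Y = Y := by omega
        rw [this]; ring
    rw [h1]
    refine (norm_sub_le _ _).trans ?_
    rw [hR]
    linarith
  -- expansion
  have hexpand : ∑ ij ∈ TT Q Y J, ‖∑ l, (u l : ℂ) * e (X l * √(NN Q ij.1 ij.2 : ℕ))‖^2 =
      ∑ a, ∑ b, u a * u b * (∑ ij ∈ TT Q Y J, e (X a * √(NN Q ij.1 ij.2 : ℕ) - X b * √(NN Q ij.1 ij.2 : ℕ))).re := by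
    rw [Finset.sum_congr rfl (fun ij _ => norm_sq_expand u (fun l => X l * √(NN Q ij.1 ij.2 : ℕ)))]
    rw [Finset.sum_comm]
    apply Finset.sum_congr rfl
    intro a _
    rw [Finset.sum_comm]
    apply Finset.sum_congr rfl
    intro b _
    rw [Complex.re_sum, Finset.mul_sum]
  rw [hexpand]
  have hterm : ∀ a b, (if a = b then u a ^2 * (TT Q Y J).card else 0) - |u a| * |u b| * R ≤
      u a * u b * (∑ ij ∈ TT Q Y J, e (X a * √(NN Q ij.1 ij.2 : ℕ) - X b * √(NN Q ij.1 ij.2 : ℕ))).re := by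
    intro a b
    by_cases hab : a = b
    · subst hab
      rw [if_pos rfl]
      simp only [sub_self, e_zero, Finset.sum_const, nsmul_eq_mul, mul_one, Complex.natCast_re]
      have : 0 ≤ |u a| * |u a| * R := by positivity
      nlinarith
    · rw [if_neg hab, zero_sub]
      have h1 := (Complex.abs_re_le_norm _).trans (hexp a b hab)
      have h2 : |u a * u b * (∑ ij ∈ TT Q Y J, e (X a * √(NN Q ij.1 ij.2 : ℕ) - X b * √(NN Q ij.1 ij.2 : ℕ))).re| ≤ |u a| * |u b| * R := by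
        rw [abs_mul, abs_mul]
        gcongr
      exact (abs_le.mp h2).1
  have hsum := Finset.sum_le_sum (fun a (_ : a ∈ Finset.univ) => Finset.sum_le_sum (fun b (_ : b ∈ Finset.univ) => hterm a b))
  refine le_trans ?_ hsum
  have e1 : ∑ a, ∑ b, ((if a = b then u a ^2 * ((TT Q Y J).card : ℝ) else 0) - |u a| * |u b| * R) =
      (TT Q Y J).card * ∑ a, u a ^2 - R * (∑ a, |u a|)^2 := by
    simp only [Finset.sum_sub_distrib, Finset.sum_ite_eq, Finset.mem_univ, if_true]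
    rw [← Finset.sum_mul, pow_two (∑ a, |u a|), Finset.sum_mul_sum, Finset.mul_sum]
    congr 1
    · rw [Finset.sum_mul]
      apply Finset.sum_congr rfl
      intro a _; ring
    · rw [Finset.mul_sum]
      apply Finset.sum_congr rfl
      intro a _
      rw [Finset.mul_sum]
      apply Finset.sum_congr rfl
      intro b _; ring
  rw [e1]
  have hcs : (∑ a, |u a|)^2 ≤ k * ∑ a, u a ^2 := by
    have h1 := sq_sum_le_card_mul_sum_sq (s := (Finset.univ : Finset ι)) (f := fun a => |u a|)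
    simp only [sq_abs, Finset.card_univ] at h1
    exact h1
  set W := ∑ a, u a ^2 with hW
  have hW0 : 0 ≤ W := Finset.sum_nonneg (fun a _ => sq_nonneg _)
  have hkey : (1/4) * δ * (Y:ℝ)^2 ≤ (TT Q Y J).card - R * k := by
    have h1 : ((TT Q Y J).card : ℝ) ≥ Y * J - 6 / z * (Y * J) := by linarith
    have h2 : CC * √(Y:ℝ) * Y * k ≤ (1/4) * (Y * J) := by
      have h3 : 8 * k * CC / δ ≤ √(Y:ℝ) := by
        apply Real.le_sqrt_of_sq_le
        refine (Nat.le_ceil _).trans ?_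
        exact_mod_cast (by omega : ⌈(8 * k * CC / δ)^2⌉₊ ≤ Y)
      rw [div_le_iff₀ hδ0] at h3
      have h4 : √(Y:ℝ) * √(Y:ℝ) = Y := Real.mul_self_sqrt hY0.le
      have h5 : 8 * k * CC * √(Y:ℝ) ≤ δ * Y := by
        calc 8 * k * CC * √(Y:ℝ) ≤ √(Y:ℝ) * δ * √(Y:ℝ) := by gcongr
          _ = δ * Y := by rw [mul_assoc, mul_comm δ, ← mul_assoc, h4]; ring
      nlinarith
    rw [hR]
    have h6 : 6 / (z:ℝ) * (Y * J) + 6 / z * (Y * J) * k = 1/4 * (Y * J) := by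
      have : 6 / (z:ℝ) * (Y * J) + 6 / z * (Y * J) * k = ((k:ℝ) + 1) * (6 / z) * (Y * J) := by ring
      rw [this, hzk]
    have h7 : (1/4) * δ * (Y:ℝ)^2 ≤ 1/2 * (Y * J) := by nlinarith
    nlinarith
  calc (1/4) * δ * (Y:ℝ)^2 * W ≤ ((TT Q Y J).card - R * k) * W := mul_le_mul_of_nonneg_right hkey hW0
    _ = (TT Q Y J).card * W - R * (k * W) := by ring
    _ ≤ _ := by
        have := mul_le_mul_of_nonneg_left hcs hR0
        linarith

end Pool.Agent.H425R3.JD
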