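import Mathlib
import Pool.Agent.H383.Reg

open MeasureTheory Filter Topology
open Pool.Agent.H383.AP Pool.Agent.H383.Gauss Pool.Agent.H383.Gen

namespace Pool.Agent.H425R3.JD

variable {Z : ℕ → ℂ} {α : ℝ} {S0 T : Finset ℕ} {s : ℕ}

/-- partial sums with complex amplitudes -/
noncomputable def SC (Z : ℕ → ℂ) (α : ℝ) (T : Finset ℕ) (n : ℕ) : ℝ :=
  (∑ m ∈ T, Z m * chr (α * √(m:ℝ)) n).re

lemma SC_trig (Z : ℕ → ℂ) (α : ℝ) (T : Finset ℕ) : (fun n : ℕ => ((SC Z α T n : ℝ) : ℂ)) =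
    ∑ m ∈ T, ((Z m / 2) • chr (α * √(m:ℝ)) +
      ((starRingEnd ℂ) (Z m) / 2) • chr (-(α * √(m:ℝ)))) := by
  funext n
  rw [Finset.sum_apply]
  unfold SC
  set z := ∑ m ∈ T, Z m * chr (α * √(m:ℝ)) n with hz
  have h1 : (z.re : ℂ) = (z + (starRingEnd ℂ) z) / 2 := by
    rw [Complex.add_conj]
    push_cast
    ring
  rw [h1, hz, map_sum, ← Finset.sum_add_distrib, Finset.sum_div]
  apply Finset.sum_congr rfl
  intro m _
  simp only [Pi.add_apply, Pi.smul_apply, smul_eq_mul]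
  rw [← chr_conj, map_mul]
  ring

lemma SC_mem {T : Finset ℕ} {Γ : AddSubgroup ℝ} (h : ∀ m ∈ T, α * √(m:ℝ) ∈ Γ) :
    (fun n : ℕ => ((SC Z α T n : ℝ) : ℂ)) ∈ TG Γ := by
  rw [SC_trig]
  apply Submodule.sum_mem
  intro m hm
  exact (TG Γ).add_mem ((TG Γ).smul_mem _ (chr_mem_TG (h m hm)))
    ((TG Γ).smul_mem _ (chr_mem_TG (Γ.neg_mem (h m hm))))

/-- exponentials -/
noncomputable def exC (Z : ℕ → ℂ) (α : ℝ) (z : ℂ) (T : Finset ℕ) : ℕ → ℂ :=
  fun n => Complex.exp (z * ((SC Z α T n : ℝ) : ℂ))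

lemma exC_mem {T : Finset ℕ} {Γ : AddSubgroup ℝ} (h : ∀ m ∈ T, α * √(m:ℝ) ∈ Γ) (z : ℂ) :
    exC Z α z T ∈ UC Γ := UC_exp (SC_mem h) z

open Classical in
lemma exC_split (z : ℂ) (T : Finset ℕ) (p : ℕ → Prop) :
    exC Z α z T = exC Z α z (T.filter p) * exC Z α z (T.filter (fun m => ¬ p m)) := by
  funext n
  rw [Pi.mul_apply]
  unfold exC
  rw [← Complex.exp_add, ← mul_add, ← Complex.ofReal_add]
  congr 3
  unfold SC
  rw [← Complex.add_re, Finset.sum_filter_add_sum_filter_not]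

open Classical in
theorem prod_formulaC {S0 : Finset ℕ} (hS : GoodS α S0) (z : ℂ) {T : Finset ℕ} (hT : ∀ m ∈ T, 1 ≤ m)
    (Q : Finset ℕ) (hQ : ∀ s ∈ Q, Squarefree s ∧ s ∉ S0) :
    mn (exC Z α z T) = (∏ s ∈ Q, mn (exC Z α z (T.filter (InC s)))) *
      mn (exC Z α z (T.filter (fun m => ∀ s ∈ Q, ¬ InC s m))) := by
  induction Q using Finset.induction_on with
  | empty =>
    have e : T.filter (fun m => ∀ s ∈ (∅ : Finset ℕ), ¬ InC s m) = T := by
      apply Finset.filter_true_of_mem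
      intro m _ s hs
      simp at hs
    rw [Finset.prod_empty, one_mul, e]
  | insert s Q hs ih =>
    have ih' := ih (fun s' hs' => hQ s' (Finset.mem_insert_of_mem hs'))
    obtain ⟨hsf, hs0⟩ := hQ s (Finset.mem_insert_self s Q)
    rw [ih', Finset.prod_insert hs]
    set T' := T.filter (fun m => ∀ s ∈ Q, ¬ InC s m) with hT'
    have e1 : T'.filter (InC s) = T.filter (InC s) := by
      ext m
      rw [Finset.mem_filter, hT', Finset.mem_filter, Finset.mem_filter]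
      constructor
      · rintro ⟨⟨h1, -⟩, h2⟩; exact ⟨h1, h2⟩
      · rintro ⟨h1, h2⟩
        refine ⟨⟨h1, fun s' hs' hc => ?_⟩, h2⟩
        have := inC_unique hsf (hQ s' (Finset.mem_insert_of_mem hs')).1 (hT m h1) h2 hc
        exact hs (this ▸ hs')
    have e2 : T'.filter (fun m => ¬ InC s m) = T.filter (fun m => ∀ s' ∈ insert s Q, ¬ InC s' m) := by
      ext m
      rw [Finset.mem_filter, hT', Finset.mem_filter, Finset.mem_filter]
      constructor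
      · rintro ⟨⟨h1, h2⟩, h3⟩
        refine ⟨h1, fun s' hs' => ?_⟩
        rw [Finset.mem_insert] at hs'
        rcases hs' with rfl | hs'
        · exact h3
        · exact h2 s' hs'
      · rintro ⟨h1, h2⟩
        exact ⟨⟨h1, fun s' hs' => h2 s' (Finset.mem_insert_of_mem hs')⟩, h2 s (Finset.mem_insert_self s Q)⟩
    have h1 : mn (exC Z α z T') = mn (exC Z α z (T.filter (InC s))) *
        mn (exC Z α z (T.filter (fun m => ∀ s' ∈ insert s Q, ¬ InC s' m))) := by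
      rw [exC_split z T' (InC s), e1, e2]
      apply mn_mul (ind_of_good hS hsf hs0)
      · apply exC_mem
        intro m hm
        exact inC_Gs (Finset.mem_filter.mp hm).2
      · apply exC_mem
        intro m hm
        rw [Finset.mem_filter] at hm
        exact not_inC_Gr (hT m hm.1) (hm.2 s (Finset.mem_insert_self s Q))
    rw [h1]; ring

/-- the total amplitude -/
noncomputable def bC (Z : ℕ → ℂ) (T : Finset ℕ) : ℝ := ∑ m ∈ T, ‖Z m‖

/-- the variance -/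
noncomputable def vC (Z : ℕ → ℂ) (T : Finset ℕ) : ℝ := (1/2) * ∑ m ∈ T, ‖Z m‖^2

lemma bC_nonneg : 0 ≤ bC Z T := Finset.sum_nonneg (fun _ _ => norm_nonneg _)

lemma vC_nonneg : 0 ≤ vC Z T := by unfold vC; positivity

lemma vC_le : vC Z T ≤ (bC Z T)^2 := by
  have h1 : ∑ m ∈ T, ‖Z m‖^2 ≤ (bC Z T)^2 := by
    unfold bC
    have : ∀ m ∈ T, ‖Z m‖^2 ≤ ‖Z m‖ * ∑ m ∈ T, ‖Z m‖ := by
      intro m hm
      rw [pow_two]
      apply mul_le_mul_of_nonneg_left _ (norm_nonneg _)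
      exact Finset.single_le_sum (f := fun m => ‖Z m‖) (fun i _ => norm_nonneg _) hm
    calc ∑ m ∈ T, ‖Z m‖^2 ≤ ∑ m ∈ T, ‖Z m‖ * ∑ m ∈ T, ‖Z m‖ := Finset.sum_le_sum this
      _ = _ := by rw [← Finset.sum_mul, pow_two]
  unfold vC
  have h2 : 0 ≤ ∑ m ∈ T, ‖Z m‖^2 := Finset.sum_nonneg (fun _ _ => by positivity)
  linarith

lemma abs_SC_le (n : ℕ) : |SC Z α T n| ≤ bC Z T := by
  unfold SC bC
  refine (Complex.abs_re_le_norm _).trans ((norm_sum_le _ _).trans (Finset.sum_le_sum (fun m _ => ?_)))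
  rw [norm_mul, norm_chr, mul_one]

/-- the terms -/
noncomputable def FC (Z : ℕ → ℂ) (α : ℝ) (m : ℕ) : ℕ → ℂ := (Z m / 2) • chr (α * √(m:ℝ)) +
      ((starRingEnd ℂ) (Z m) / 2) • chr (-(α * √(m:ℝ)))

lemma FC_mean (hS : GoodS α S0) (hs : Squarefree s) (hs0 : s ∉ S0) {m : ℕ} (hm : 1 ≤ m) (hc : InC s m) :
    HasMean (FC Z α m) 0 := by
  obtain ⟨t, ht⟩ := hc
  have ht0 : (t:ℤ) ≠ 0 := by
    intro h
    have : t = 0 := by exact_mod_cast h
    rw [this] at ht; simp at ht; omega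
  have e : α * √(m:ℝ) = (t:ℤ) * (α * √(s:ℝ)) := by
    rw [ht]; push_cast
    rw [Real.sqrt_mul (Nat.cast_nonneg s), Real.sqrt_sq (Nat.cast_nonneg t)]; ring
  have h1 := nonres hS hs hs0 ht0
  have h2 := nonres hS hs hs0 (neg_ne_zero.mpr ht0)
  have h3 := ((chr_mean (α * √(m:ℝ))).smul (Z m / 2)).add
      ((chr_mean (-(α * √(m:ℝ)))).smul ((starRingEnd ℂ) (Z m) / 2))
  rw [Pool.Agent.H383.Gen.mc_zero_of (θ := α * √(m:ℝ)) (by rw [e]; exact h1),
    Pool.Agent.H383.Gen.mc_zero_of (θ := -(α * √(m:ℝ))) (by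
      rw [e]
      have : -(((t:ℤ):ℝ) * (α * √(s:ℝ))) = ((-(t:ℤ) : ℤ) : ℝ) * (α * √(s:ℝ)) := by push_cast; ring
      rw [this]; exact h2)] at h3
  unfold FC
  simpa using h3

lemma FC_mul_mean (hS : GoodS α S0) (hs : Squarefree s) (hs0 : s ∉ S0) {m m' : ℕ} (hm : 1 ≤ m) (hc : InC s m)
    (hm' : 1 ≤ m') (hc' : InC s m') :
    HasMean (FC Z α m * FC Z α m') (if m = m' then (((1/2) * ‖Z m‖^2 : ℝ) : ℂ) else 0) := by
  obtain ⟨t, ht⟩ := hc
  obtain ⟨t', ht'⟩ := hc'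
  have ht0 : 0 < t := by
    rcases Nat.eq_zero_or_pos t with h | h
    · rw [h] at ht; simp at ht; omega
    · exact h
  have ht0' : 0 < t' := by
    rcases Nat.eq_zero_or_pos t' with h | h
    · rw [h] at ht'; simp at ht'; omega
    · exact h
  have e : α * √(m:ℝ) = t * (α * √(s:ℝ)) := by
    rw [ht]; push_cast
    rw [Real.sqrt_mul (Nat.cast_nonneg s), Real.sqrt_sq (Nat.cast_nonneg t)]; ring
  have e' : α * √(m':ℝ) = t' * (α * √(s:ℝ)) := by
    rw [ht']; push_cast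
    rw [Real.sqrt_mul (Nat.cast_nonneg s), Real.sqrt_sq (Nat.cast_nonneg t')]; ring
  set A := Z m with hA
  set A' := Z m' with hA'
  have hexp : FC Z α m * FC Z α m' =
      ((A * A' / 4) • chr (α * √(m:ℝ) + α * √(m':ℝ)) +
      (A * (starRingEnd ℂ) A' / 4) • chr (α * √(m:ℝ) + -(α * √(m':ℝ)))) +
      (((starRingEnd ℂ) A * A' / 4) • chr (-(α * √(m:ℝ)) + α * √(m':ℝ)) +
      ((starRingEnd ℂ) A * (starRingEnd ℂ) A' / 4) • chr (-(α * √(m:ℝ)) + -(α * √(m':ℝ)))) := by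
    unfold FC
    rw [← chr_mul, ← chr_mul, ← chr_mul, ← chr_mul]
    funext n
    simp only [Pi.add_apply, Pi.mul_apply, Pi.smul_apply, smul_eq_mul]
    ring
  rw [hexp]
  have c1 : mc (α * √(m:ℝ) + α * √(m':ℝ)) = 0 := by
    apply Pool.Agent.H383.Gen.mc_zero_of
    have h1 := nonres hS hs hs0 (c := (t:ℤ) + t') (by positivity)
    rw [e, e']
    have : (t:ℝ) * (α * √(s:ℝ)) + t' * (α * √(s:ℝ)) = (((t:ℤ) + t' : ℤ) : ℝ) * (α * √(s:ℝ)) := by push_cast; ring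
    rw [this]; exact h1
  have c4 : mc (-(α * √(m:ℝ)) + -(α * √(m':ℝ))) = 0 := by
    apply Pool.Agent.H383.Gen.mc_zero_of
    have h1 := nonres hS hs hs0 (c := -((t:ℤ) + t')) (by
      rw [neg_ne_zero]; positivity)
    rw [e, e']
    have : -((t:ℝ) * (α * √(s:ℝ))) + -(t' * (α * √(s:ℝ))) = ((-((t:ℤ) + t') : ℤ) : ℝ) * (α * √(s:ℝ)) := by push_cast; ring
    rw [this]; exact h1
  have hlim := ((((chr_mean (α * √(m:ℝ) + α * √(m':ℝ))).smul (A * A' / 4)).add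
    ((chr_mean (α * √(m:ℝ) + -(α * √(m':ℝ)))).smul (A * (starRingEnd ℂ) A' / 4)))).add
    (((chr_mean (-(α * √(m:ℝ)) + α * √(m':ℝ))).smul ((starRingEnd ℂ) A * A' / 4)).add
    ((chr_mean (-(α * √(m:ℝ)) + -(α * √(m':ℝ)))).smul ((starRingEnd ℂ) A * (starRingEnd ℂ) A' / 4)))
  rw [c1, c4] at hlim
  by_cases hmm : m = m'
  · subst hmm
    rw [if_pos rfl]
    have c2 : mc (α * √(m:ℝ) + -(α * √(m:ℝ))) = 1 := by
      rw [add_neg_cancel, ← mn_chr, chr_zero, mn_one]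
    have c3 : mc (-(α * √(m:ℝ)) + α * √(m:ℝ)) = 1 := by
      rw [neg_add_cancel, ← mn_chr, chr_zero, mn_one]
    rw [c2, c3] at hlim
    have h5 : A * (starRingEnd ℂ) A = ((‖Z m‖^2 : ℝ) : ℂ) := by
      rw [Complex.mul_conj, Complex.normSq_eq_norm_sq, hA]
    have h6 : A * A' / 4 * 0 + A * (starRingEnd ℂ) A' / 4 * 1 +
        ((starRingEnd ℂ) A * A' / 4 * 1 + (starRingEnd ℂ) A * (starRingEnd ℂ) A' / 4 * 0) =
        (((1/2) * ‖Z m‖^2 : ℝ) : ℂ) := by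
      have : A' = A := rfl
      rw [this]
      have e1 : (starRingEnd ℂ) A * A = A * (starRingEnd ℂ) A := mul_comm _ _
      rw [mul_zero, mul_zero, zero_add, add_zero, mul_one, mul_one, e1, h5]
      push_cast; ring
    rw [h6] at hlim
    exact hlim
  · rw [if_neg hmm]
    have htt : t ≠ t' := by
      rintro rfl
      exact hmm (ht.trans ht'.symm)
    have c2 : mc (α * √(m:ℝ) + -(α * √(m':ℝ))) = 0 := by
      apply Pool.Agent.H383.Gen.mc_zero_of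
      have h1 := nonres hS hs hs0 (c := (t:ℤ) - t') (by
        intro h; apply htt; omega)
      rw [e, e']
      have : (t:ℝ) * (α * √(s:ℝ)) + -(t' * (α * √(s:ℝ))) = (((t:ℤ) - t' : ℤ) : ℝ) * (α * √(s:ℝ)) := by push_cast; ring
      rw [this]; exact h1
    have c3 : mc (-(α * √(m:ℝ)) + α * √(m':ℝ)) = 0 := by
      apply Pool.Agent.H383.Gen.mc_zero_of
      have h1 := nonres hS hs hs0 (c := (t':ℤ) - t) (by
        intro h; apply htt; omega)
      rw [e, e']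
      have : -((t:ℝ) * (α * √(s:ℝ))) + t' * (α * √(s:ℝ)) = (((t':ℤ) - t : ℤ) : ℝ) * (α * √(s:ℝ)) := by push_cast; ring
      rw [this]; exact h1
    rw [c2, c3] at hlim
    simpa using hlim

lemma SC_mean (hS : GoodS α S0) (hs : Squarefree s) (hs0 : s ∉ S0) (hT : ∀ m ∈ T, 1 ≤ m ∧ InC s m) :
    HasMean (fun n : ℕ => ((SC Z α T n : ℝ) : ℂ)) 0 := by
  rw [SC_trig]
  have h := HasMean.sum T (fun m => FC Z α m) (fun _ => 0)
    (fun m hm => FC_mean hS hs hs0 (hT m hm).1 (hT m hm).2)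
  rw [Finset.sum_const_zero] at h
  exact h

lemma SC_sq_mean (hS : GoodS α S0) (hs : Squarefree s) (hs0 : s ∉ S0) (hT : ∀ m ∈ T, 1 ≤ m ∧ InC s m) :
    HasMean (fun n : ℕ => (((SC Z α T n)^2 : ℝ) : ℂ)) ((vC Z T : ℝ) : ℂ) := by
  have e : (fun n : ℕ => (((SC Z α T n)^2 : ℝ) : ℂ)) =
      ∑ m ∈ T, ∑ m' ∈ T, FC Z α m * FC Z α m' := by
    rw [← Finset.sum_mul_sum]
    have h1 := SC_trig Z α T
    funext n
    have h2 := congrFun h1 n
    rw [Pi.mul_apply, sq]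
    push_cast
    rw [h2]
    rfl
  rw [e]
  have h := HasMean.sum T (fun m => ∑ m' ∈ T, FC Z α m * FC Z α m')
    (fun m => ∑ m' ∈ T, if m = m' then (((1/2) * ‖Z m‖^2 : ℝ) : ℂ) else 0)
    (fun m hm => HasMean.sum T _ _ (fun m' hm' => FC_mul_mean hS hs hs0 (hT m hm).1 (hT m hm).2 (hT m' hm').1 (hT m' hm').2))
  have e2 : ∑ m ∈ T, ∑ m' ∈ T, (if m = m' then (((1/2) * ‖Z m‖^2 : ℝ) : ℂ) else 0) = ((vC Z T : ℝ) : ℂ) := by
    unfold vC
    rw [Finset.mul_sum]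
    push_cast
    apply Finset.sum_congr rfl
    intro m hm
    rw [Finset.sum_ite_eq, if_pos hm]
  rw [e2] at h
  exact h

lemma rm_SC_sq (hS : GoodS α S0) (hs : Squarefree s) (hs0 : s ∉ S0) (hT : ∀ m ∈ T, 1 ≤ m ∧ InC s m) :
    Tendsto (rm (fun n : ℕ => (SC Z α T n)^2)) atTop (𝓝 (vC Z T)) := by
  have h := SC_sq_mean (Z := Z) hS hs hs0 hT
  unfold HasMean at h
  have e : cm (fun n : ℕ => (((SC Z α T n)^2 : ℝ) : ℂ)) = fun N => ((rm (fun n : ℕ => (SC Z α T n)^2) N : ℝ) : ℂ) := by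
    funext N; exact cm_ofReal _ N
  rw [e] at h
  have h4 := (Complex.continuous_re.tendsto _).comp h
  rw [Complex.ofReal_re] at h4
  exact h4

lemma exC_UC_top (z : ℂ) : exC Z α z T ∈ UC ⊤ := exC_mem (fun _ _ => AddSubgroup.mem_top _) z

/-- decay factor of one block -/
theorem blk_charC (hS : GoodS α S0) (hs : Squarefree s) (hs0 : s ∉ S0) (hT : ∀ m ∈ T, 1 ≤ m ∧ InC s m)
    {t : ℝ} (ht : |t| * bC Z T ≤ 1) :
    ‖mn (exC Z α ((t:ℂ) * Complex.I) T)‖ ≤ Real.exp (-((5/18) * t^2 * vC Z T)) := by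
  set V := vC Z T with hV
  have hV0 : 0 ≤ V := vC_nonneg
  have htV : t^2 * V ≤ 1 := by
    calc t^2 * V ≤ t^2 * (bC Z T)^2 := by gcongr; exact vC_le
      _ = (|t| * bC Z T)^2 := by rw [mul_pow, sq_abs]
      _ ≤ 1 := by
          have h0 : 0 ≤ |t| * bC Z T := mul_nonneg (abs_nonneg _) bC_nonneg
          nlinarith
  set g : ℕ → ℂ := fun n => 1 + ((t:ℂ) * Complex.I) * ((SC Z α T n : ℝ) : ℂ) +
    (-((t^2/2 : ℝ) : ℂ)) * (((SC Z α T n)^2 : ℝ) : ℂ) with hg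
  have hgm : HasMean g ((1 - t^2 / 2 * V : ℝ) : ℂ) := by
    have h1 := ((hasMean_const (1:ℂ)).add ((SC_mean (Z := Z) hS hs hs0 hT).smul ((t:ℂ) * Complex.I))).add
      ((SC_sq_mean (Z := Z) hS hs hs0 hT).smul (-((t^2/2 : ℝ) : ℂ)))
    have e : (1:ℂ) + (t:ℂ) * Complex.I * 0 + -((t^2/2 : ℝ) : ℂ) * ((vC Z T : ℝ) : ℂ) = ((1 - t^2 / 2 * V : ℝ) : ℂ) := by
      push_cast; ring
    rw [e] at h1
    exact h1
  have hpt : ∀ n, ‖exC Z α ((t:ℂ) * Complex.I) T n - g n‖ ≤ (2/9) * t^2 * (SC Z α T n)^2 := by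
    intro n
    set y := SC Z α T n with hy
    have hy1 : |y| ≤ bC Z T := abs_SC_le n
    have hx1 : ‖(t:ℂ) * Complex.I * ((y:ℝ) : ℂ)‖ = |t| * |y| := by
      rw [norm_mul, norm_mul, Complex.norm_I, mul_one, Complex.norm_real, Complex.norm_real, Real.norm_eq_abs, Real.norm_eq_abs]
    have hx2 : |t| * |y| ≤ 1 := (mul_le_mul_of_nonneg_left hy1 (abs_nonneg _)).trans ht
    have h1 := Complex.exp_bound (x := (t:ℂ) * Complex.I * ((y:ℝ) : ℂ)) (by rw [hx1]; exact hx2) (n := 3) (by norm_num)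
    rw [hx1] at h1
    have e : exC Z α ((t:ℂ) * Complex.I) T n - g n = Complex.exp ((t:ℂ) * Complex.I * ((y:ℝ) : ℂ)) -
        ∑ m ∈ Finset.range 3, ((t:ℂ) * Complex.I * ((y:ℝ) : ℂ)) ^ m / (m.factorial : ℂ) := by
      unfold exC
      rw [hg, Finset.sum_range_succ, Finset.sum_range_succ, Finset.sum_range_one]
      simp only [pow_zero, pow_one, Nat.factorial, Nat.cast_one, div_one, ← hy]
      push_cast
      have hI : Complex.I ^ 2 = -1 := Complex.I_sq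
      linear_combination ((t:ℂ)^2 * (y:ℂ)^2 / 2) * hI
    rw [e]
    refine h1.trans ?_
    have h0 : 0 ≤ |t| * |y| := by positivity
    have h3 : (|t| * |y|)^3 ≤ t^2 * y^2 := by
      have : (|t| * |y|)^2 = t^2 * y^2 := by rw [mul_pow, sq_abs, sq_abs]
      rw [← this]
      nlinarith [pow_nonneg h0 2]
    have h4 : (((3:ℕ).succ : ℝ) * (((3:ℕ).factorial : ℝ) * ((3:ℕ):ℝ))⁻¹) = 2/9 := by
      simp only [Nat.factorial]; norm_num
    rw [h4]
    nlinarith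
  have hclose : ∀ ε : ℝ, 0 < ε → ‖mn (exC Z α ((t:ℂ) * Complex.I) T) - ((1 - t^2 / 2 * V : ℝ) : ℂ)‖ ≤
      (2/9) * t^2 * V + ε := by
    intro ε hε
    apply mean_close (UC_hasMean (exC_UC_top _)) hgm
    have h1 := (rm_SC_sq (Z := Z) hS hs hs0 hT).const_mul ((2/9) * t^2)
    have h2 := h1.eventually (gt_mem_nhds (show (2/9) * t^2 * V < (2/9) * t^2 * V + ε by linarith))
    rw [eventually_atTop] at h2
    obtain ⟨N0, hN0⟩ := h2
    refine ⟨N0, fun N hN => ?_⟩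
    refine (norm_cm_sub_le _ _ N).trans ?_
    refine (rm_mono hpt N).trans ?_
    have e : rm (fun n : ℕ => (2/9) * t^2 * (SC Z α T n)^2) N = (2/9) * t^2 * rm (fun n : ℕ => (SC Z α T n)^2) N :=
      rm_mul _ _ _
    rw [e]
    exact (hN0 N hN).le
  have hclose' : ‖mn (exC Z α ((t:ℂ) * Complex.I) T) - ((1 - t^2 / 2 * V : ℝ) : ℂ)‖ ≤ (2/9) * t^2 * V :=
    le_of_forall_pos_le_add hclose
  have hn : ‖mn (exC Z α ((t:ℂ) * Complex.I) T)‖ ≤ 1 - (5/18) * t^2 * V := by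
    calc ‖mn (exC Z α ((t:ℂ) * Complex.I) T)‖
        = ‖(mn (exC Z α ((t:ℂ) * Complex.I) T) - ((1 - t^2 / 2 * V : ℝ) : ℂ)) + ((1 - t^2 / 2 * V : ℝ) : ℂ)‖ := by
          rw [sub_add_cancel]
      _ ≤ (2/9) * t^2 * V + |1 - t^2 / 2 * V| := by
          refine (norm_add_le _ _).trans ?_
          rw [Complex.norm_real, Real.norm_eq_abs]
          gcongr
      _ = 1 - (5/18) * t^2 * V := by
          rw [abs_of_nonneg (by nlinarith)]; ring
  refine hn.trans ?_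
  have := Real.add_one_le_exp (-((5/18) * t^2 * V))
  linarith

end Pool.Agent.H425R3.JD
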