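import Mathlib
import Pool.Agent.H425R3.JD.B1

open MeasureTheory Filter Topology
open Pool.Agent.H383.AP Pool.Agent.H383.Gauss Pool.Agent.H383.Gen

namespace Pool.Agent.H425R3.JD

variable {ι : Type*} [Fintype ι] {a : ℕ → ℝ} {φ α κ : ℝ} {X : ι → ℝ} {S0 : Finset ℕ} {e : ℕ → ι → ℝ}
  {μ : ProbabilityMeasure (ι → ℝ)}

/-- the amplitudes of a linear combination -/
noncomputable def Zt (a : ℕ → ℝ) (φ : ℝ) (X t : ι → ℝ) (m : ℕ) : ℂ := ∑ i, (t i : ℂ) * ac a φ (X i) m

lemma SC_Zt (t : ι → ℝ) (M n : ℕ) : SC (Zt a φ X t) α (Finset.Icc 1 (M^2)) n = ∑ i, t i * U a φ (X i + n * α) M := by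
  unfold SC Zt
  simp only [U_eq_re]
  have h1 : ∑ m ∈ Finset.Icc 1 (M^2), (∑ i, (t i : ℂ) * ac a φ (X i) m) * chr (α * √(m:ℝ)) n =
      ∑ i, (t i : ℂ) * ∑ m ∈ Finset.Icc 1 (M^2), ac a φ (X i) m * chr (α * √(m:ℝ)) n := by
    simp only [Finset.sum_mul, Finset.mul_sum]
    rw [Finset.sum_comm]
    apply Finset.sum_congr rfl
    intro i _
    apply Finset.sum_congr rfl
    intro m _
    ring
  rw [h1, Complex.re_sum]
  apply Finset.sum_congr rfl
  intro i _
  rw [Complex.re_ofReal_mul]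

lemma norm_Zt_le (t : ι → ℝ) (m : ℕ) : ‖Zt a φ X t m‖ ≤ (∑ i, |t i|) * |a m| := by
  unfold Zt
  refine (norm_sum_le _ _).trans ?_
  rw [Finset.sum_mul]
  apply Finset.sum_le_sum
  intro i _
  rw [norm_mul, Complex.norm_real, Real.norm_eq_abs, norm_ac]

lemma bC_Zt (t : ι → ℝ) (T : Finset ℕ) : bC (Zt a φ X t) T ≤ (∑ i, |t i|) * bT a T := by
  unfold bC bT
  rw [Finset.mul_sum]
  exact Finset.sum_le_sum (fun m _ => norm_Zt_le t m)

/-- the characteristic function -/
noncomputable def cf (μ : ProbabilityMeasure (ι → ℝ)) (t : ι → ℝ) : ℂ :=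
  ∫ x, Complex.exp (((∑ i, t i * x i : ℝ) : ℂ) * Complex.I) ∂(μ : Measure (ι → ℝ))

/-- the limit law property -/
def LawV (e : ℕ → ι → ℝ) (μ : ProbabilityMeasure (ι → ℝ)) : Prop :=
  ∀ f : (ι → ℝ) → ℝ, Continuous f → (∃ B, ∀ x, |f x| ≤ B) →
      Tendsto (rm (fun n => f (e n))) atTop (𝓝 (∫ x, f x ∂(μ : Measure (ι → ℝ))))

lemma LawV.char (h : LawV e μ) (t : ι → ℝ) :
    HasMean (fun n => Complex.exp (((∑ i, t i * e n i : ℝ) : ℂ) * Complex.I)) (cf μ t) := by
  have h1 := h (fun x => Real.cos (∑ i, t i * x i)) (by fun_prop) ⟨1, fun x => Real.abs_cos_le_one _⟩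
  have h2 := h (fun x => Real.sin (∑ i, t i * x i)) (by fun_prop) ⟨1, fun x => Real.abs_sin_le_one _⟩
  have hint1 : Integrable (fun x : ι → ℝ => Real.cos (∑ i, t i * x i)) (μ : Measure (ι → ℝ)) := by
    apply Integrable.of_bound (C := 1) (by apply Continuous.aestronglyMeasurable; fun_prop)
    exact Eventually.of_forall (fun x => by rw [Real.norm_eq_abs]; exact Real.abs_cos_le_one _)
  have hint2 : Integrable (fun x : ι → ℝ => Real.sin (∑ i, t i * x i)) (μ : Measure (ι → ℝ)) := by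
    apply Integrable.of_bound (C := 1) (by apply Continuous.aestronglyMeasurable; fun_prop)
    exact Eventually.of_forall (fun x => by rw [Real.norm_eq_abs]; exact Real.abs_sin_le_one _)
  have e1 : cf μ t = ((∫ x, Real.cos (∑ i, t i * x i) ∂(μ : Measure (ι → ℝ)) : ℝ) : ℂ) +
      ((∫ x, Real.sin (∑ i, t i * x i) ∂(μ : Measure (ι → ℝ)) : ℝ) : ℂ) * Complex.I := by
    unfold cf
    rw [← integral_complex_ofReal, ← integral_complex_ofReal, ← integral_mul_const, ← integral_add]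
    · congr 1
      funext x
      rw [Complex.exp_mul_I, Complex.ofReal_cos, Complex.ofReal_sin]
    · exact hint1.ofReal
    · exact hint2.ofReal.mul_const _
  rw [e1]
  unfold HasMean
  have e2 : cm (fun n => Complex.exp (((∑ i, t i * e n i : ℝ) : ℂ) * Complex.I)) = fun N =>
      ((rm (fun n => Real.cos (∑ i, t i * e n i)) N : ℝ) : ℂ) + ((rm (fun n => Real.sin (∑ i, t i * e n i)) N : ℝ) : ℂ) * Complex.I := by
    funext N
    rw [← cm_ofReal, ← cm_ofReal]
    unfold cm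
    rw [div_mul_eq_mul_div, ← add_div, Finset.sum_mul, ← Finset.sum_add_distrib]
    congr 1
    apply Finset.sum_congr rfl
    intro n _
    beta_reduce
    rw [Complex.exp_mul_I, Complex.ofReal_cos, Complex.ofReal_sin]
  rw [e2]
  exact ((Complex.continuous_ofReal.tendsto _).comp h1).add (((Complex.continuous_ofReal.tendsto _).comp h2).mul_const _)

/-- bound for the characteristic function by the approximants -/
lemma cf_le_of_approx (hA : ∀ i, Ap a φ (fun n => e n i) α (X i)) (h : LawV e μ) (t : ι → ℝ) {B : ℝ} {M1 : ℕ}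
    (hB : ∀ M : ℕ, M1 ≤ M → ‖mn (exC (Zt a φ X t) α Complex.I (Finset.Icc 1 (M^2)))‖ ≤ B) :
    ‖cf μ t‖ ≤ B := by
  apply le_of_forall_pos_le_add
  intro ε hε
  set L : ℝ := ∑ i, |t i| with hL
  have hL0 : 0 ≤ L := Finset.sum_nonneg (fun i _ => abs_nonneg _)
  have hA' := fun i => hA i ((ε / (L + 1))^2) (by positivity)
  choose M0 hM0 using hA'
  set M := max (Finset.univ.sup M0) M1 with hM
  have hMi : ∀ i, M0 i ≤ M := fun i => (Finset.le_sup (Finset.mem_univ i)).trans (le_max_left _ _)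
  choose N0 hN0 using fun i => hM0 i M (hMi i)
  have h1 := mean_close (η := ε) (h.char t) (UC_hasMean (exC_UC_top (Z := Zt a φ X t) (α := α)
    (T := Finset.Icc 1 (M^2)) Complex.I)) ⟨Finset.univ.sup N0, fun N hN => by
      refine (norm_cm_sub_le _ _ N).trans ?_
      have hpt : ∀ n, ‖Complex.exp (((∑ i, t i * e n i : ℝ) : ℂ) * Complex.I) -
          exC (Zt a φ X t) α Complex.I (Finset.Icc 1 (M^2)) n‖ ≤ ∑ i, |t i| * |e n i - U a φ (X i + n * α) M| := by
        intro n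
        unfold exC
        rw [SC_Zt]
        set y := ∑ i, t i * U a φ (X i + n * α) M with hy
        set w := ∑ i, t i * e n i with hw
        have e0 : Complex.I * ((y : ℝ) : ℂ) = ((y : ℝ) : ℂ) * Complex.I := mul_comm _ _
        rw [e0]
        have e1 : Complex.exp (((w : ℝ) : ℂ) * Complex.I) - Complex.exp (((y : ℝ) : ℂ) * Complex.I) =
            Complex.exp (((y : ℝ) : ℂ) * Complex.I) * (Complex.exp (Complex.I * ((w - y : ℝ) : ℂ)) - 1) := by
          rw [mul_sub, ← Complex.exp_add, mul_one]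
          congr 2
          push_cast; ring
        rw [e1, norm_mul, Complex.norm_exp_ofReal_mul_I, one_mul]
        refine Real.norm_exp_I_mul_ofReal_sub_one_le.trans ?_
        rw [hw, hy, ← Finset.sum_sub_distrib]
        refine (norm_sum_le _ _).trans (Finset.sum_le_sum (fun i _ => ?_))
        rw [← mul_sub, Real.norm_eq_abs, abs_mul]
      refine (rm_mono hpt N).trans ?_
      have e3 : rm (fun n => ∑ i, |t i| * |e n i - U a φ (X i + n * α) M|) N =
          ∑ i, |t i| * rm (fun n => |e n i - U a φ (X i + n * α) M|) N := by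
        unfold rm
        rw [Finset.sum_comm, Finset.sum_div]
        apply Finset.sum_congr rfl
        intro i _
        rw [← Finset.mul_sum, mul_div_assoc]
      rw [e3]
      calc ∑ i, |t i| * rm (fun n => |e n i - U a φ (X i + n * α) M|) N ≤ ∑ i, |t i| * (ε / (L + 1)) := by
            apply Finset.sum_le_sum
            intro i _
            apply mul_le_mul_of_nonneg_left _ (abs_nonneg _)
            exact rm_abs_le (x := fun n => e n i - U a φ (X i + n * α) M) (c := ε / (L + 1)) (by positivity)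
              (hN0 i N ((Finset.le_sup (Finset.mem_univ i)).trans hN))
        _ = L * (ε / (L + 1)) := by rw [← Finset.sum_mul]
        _ ≤ ε := by
            rw [mul_div_assoc', div_le_iff₀ (by positivity)]
            nlinarith⟩
  have h3 := hB M (le_max_right _ _)
  calc ‖cf μ t‖ = ‖(cf μ t - mn (exC (Zt a φ X t) α Complex.I (Finset.Icc 1 (M^2)))) +
        mn (exC (Zt a φ X t) α Complex.I (Finset.Icc 1 (M^2)))‖ := by rw [sub_add_cancel]
    _ ≤ ε + B := (norm_add_le _ _).trans (add_le_add h1 h3)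
    _ = B + ε := add_comm _ _

open Classical in
/-- decay of the characteristic function of the joint law -/
theorem cf_bound (hS : GoodS α S0) (hA : ∀ i, Ap a φ (fun n => e n i) α (X i)) (h : LawV e μ)
    (hκ : 1/2 < κ) {C : ℝ} (hC : 0 < C) (ha : ∀ m : ℕ, 1 ≤ m → |a m| ≤ C * (m:ℝ) ^ (-κ))
    {t : ι → ℝ} {Q : Finset ℕ} (hQ : ∀ s ∈ Q, Squarefree s ∧ s ∉ S0)
    (hQt : ∀ s ∈ Q, (∑ i, |t i|) * (C * (∑' t : ℕ, (t:ℝ) ^ (-(2 * κ)))) * (s:ℝ) ^ (-κ) ≤ 1) :
    ‖cf μ t‖ ≤ Real.exp (-((5/36) * ∑ q ∈ Q, ‖Zt a φ X t q‖^2)) := by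
  apply cf_le_of_approx hA h t (M1 := Q.sup id + 1)
  intro M hM
  set Z := Zt a φ X t with hZ
  have hqM : ∀ q ∈ Q, q ∈ Finset.Icc 1 (M^2) := by
    intro q hq
    have h2 : q ≤ Q.sup id := Finset.le_sup (f := id) hq
    rw [Finset.mem_Icc]
    refine ⟨Nat.one_le_iff_ne_zero.mpr (hQ q hq).1.ne_zero, by nlinarith⟩
  rw [prod_formulaC (Z := Z) hS Complex.I (T := Finset.Icc 1 (M^2))
    (fun m hm => (Finset.mem_Icc.mp hm).1) Q hQ, norm_mul, norm_prod]
  have h1 : ‖mn (exC Z α Complex.I ((Finset.Icc 1 (M^2)).filter (fun m => ∀ s ∈ Q, ¬ InC s m)))‖ ≤ 1 := by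
    apply mn_norm_le (exC_UC_top _) zero_le_one
    intro n
    unfold exC
    have e0 : ∀ y : ℝ, Complex.I * (y : ℂ) = (y : ℂ) * Complex.I := by intro y; ring
    rw [e0, Complex.norm_exp_ofReal_mul_I]
  have h2 : ∀ s ∈ Q, ‖mn (exC Z α Complex.I ((Finset.Icc 1 (M^2)).filter (InC s)))‖ ≤
      Real.exp (-((5/36) * ‖Z s‖^2)) := by
    intro s hs
    obtain ⟨hsf, hs0⟩ := hQ s hs
    have hT : ∀ m ∈ (Finset.Icc 1 (M^2)).filter (InC s), 1 ≤ m ∧ InC s m := by
      intro m hm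
      rw [Finset.mem_filter, Finset.mem_Icc] at hm
      exact ⟨hm.1.1, hm.2⟩
    have hb := bT_le hκ hC ha (Nat.one_le_iff_ne_zero.mpr hsf.ne_zero) hT
    have hbt : |(1:ℝ)| * bC Z ((Finset.Icc 1 (M^2)).filter (InC s)) ≤ 1 := by
      rw [abs_one, one_mul]
      refine (bC_Zt t _).trans (le_trans ?_ (hQt s hs))
      have := mul_le_mul_of_nonneg_left hb (Finset.sum_nonneg (fun i (_ : i ∈ Finset.univ) => abs_nonneg (t i)))
      linarith
    have h3 := blk_charC (Z := Z) hS hsf hs0 hT hbt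
    simp only [Complex.ofReal_one, one_mul, one_pow, mul_one] at h3
    refine h3.trans ?_
    apply Real.exp_le_exp.mpr
    have hv : (1/2) * ‖Z s‖^2 ≤ vC Z ((Finset.Icc 1 (M^2)).filter (InC s)) := by
      unfold vC
      have hmem : s ∈ (Finset.Icc 1 (M^2)).filter (InC s) := by
        rw [Finset.mem_filter]
        exact ⟨hqM s hs, ⟨1, by ring⟩⟩
      have := Finset.single_le_sum (f := fun m => ‖Z m‖^2) (fun i _ => by positivity) hmem
      linarith
    linarith
  calc (∏ s ∈ Q, ‖mn (exC Z α Complex.I ((Finset.Icc 1 (M^2)).filter (InC s)))‖) *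
        ‖mn (exC Z α Complex.I ((Finset.Icc 1 (M^2)).filter (fun m => ∀ s ∈ Q, ¬ InC s m)))‖
      ≤ (∏ s ∈ Q, Real.exp (-((5/36) * ‖Z s‖^2))) * 1 := by
        gcongr with s hs
        exact h2 s hs
    _ = Real.exp (-((5/36) * ∑ q ∈ Q, ‖Z q‖^2)) := by
        rw [mul_one, ← Real.exp_sum, Finset.sum_neg_distrib, Finset.mul_sum]

end Pool.Agent.H425R3.JD
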