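import Mathlib
import Pool.Agent.H425R3.JD.A3
import Pool.Agent.H425R3.JD.B2
import Pool.Agent.H383.Expand

open MeasureTheory Filter Topology
open Pool.Agent.H383.AP Pool.Agent.H383.Gauss Pool.Agent.H383.Gen
open Pool.Agent.H469R2.NK (e norm_e)

namespace Pool.Agent.H425R3.JD

open Pool.Agent.H383

variable {ι : Type*} [Fintype ι] {a : ℕ → ℝ} {φ α : ℝ} {X : ι → ℝ} {S0 : Finset ℕ} {E : ℕ → ι → ℝ}
  {μ : ProbabilityMeasure (ι → ℝ)}

/-- lower bound for the coefficients -/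
def LR (a : ℕ → ℝ) : Prop := ∃ c : ℝ, 0 < c ∧ ∀ m : ℕ, 1 ≤ m → c * (rA m * (m:ℝ) ^ (-(3/4):ℝ)) ≤ a m

lemma norm_Zt_eq (t : ι → ℝ) (m : ℕ) : ‖Zt a φ X t m‖ = |a m| * ‖∑ l, (t l : ℂ) * e (X l * √(m:ℝ))‖ := by
  have h1 : Zt a φ X t m = ((a m : ℂ) * Complex.exp (((-φ : ℝ) : ℂ) * Complex.I)) * ∑ l, (t l : ℂ) * e (X l * √(m:ℝ)) := by
    unfold Zt ac e
    rw [Finset.mul_sum]
    apply Finset.sum_congr rfl
    intro i _
    have h2 : Complex.exp (((2 * Real.pi * (X i * √(m:ℝ)) - φ : ℝ) : ℂ) * Complex.I) =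
        Complex.exp (((-φ : ℝ) : ℂ) * Complex.I) * Complex.exp (((2 * Real.pi * (X i * √(m:ℝ)) : ℝ) : ℂ) * Complex.I) := by
      rw [← Complex.exp_add]
      congr 1
      push_cast; ring
    rw [h2]; ring
  rw [h1, norm_mul, norm_mul, Complex.norm_exp_ofReal_mul_I, mul_one, Complex.norm_real, Real.norm_eq_abs]

/-- the squarefree numbers of the family -/
noncomputable def QS (Q Y J : ℕ) : Finset ℕ := by
  classical
  exact (TT Q Y J).image (fun ij => NN Q ij.1 ij.2)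

lemma mem_TT {Q Y J : ℕ} {ij : ℕ × ℕ} (h : ij ∈ TT Q Y J) : (Y < ij.1 ∧ ij.1 ≤ 2 * Y) ∧ (1 ≤ ij.2 ∧ ij.2 ≤ J) ∧
    Squarefree (NN Q ij.1 ij.2) := by
  unfold TT at h
  rw [Finset.mem_filter, Finset.mem_product, Finset.mem_Ioc, Finset.mem_Icc] at h
  exact ⟨h.1.1, h.1.2, h.2⟩

lemma QS_mem {Q Y J s : ℕ} (hQ : 1 ≤ Q) (hY : 1 ≤ Y) (hJ : J ≤ Y) (h : s ∈ QS Q Y J) : Squarefree s ∧ Y^2 ≤ s ∧ s ≤ (4*Q*Y)^2 := by
  unfold QS at h
  rw [Finset.mem_image] at h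
  obtain ⟨ij, hij, rfl⟩ := h
  obtain ⟨h1, h2, h3⟩ := mem_TT hij
  refine ⟨h3, ?_, ?_⟩
  · unfold NN
    have : Y ≤ Q * ij.1 + 1 := by nlinarith
    have := Nat.pow_le_pow_left this 2
    omega
  · unfold NN
    have a1 : Q * ij.1 + 1 ≤ 3 * Q * Y := by
      have : Q * ij.1 ≤ Q * (2 * Y) := Nat.mul_le_mul_left _ h1.2
      have : 1 ≤ Q * Y := Nat.mul_pos hQ hY
      nlinarith
    have a2 : Q * ij.2 ≤ Q * Y := Nat.mul_le_mul_left _ (h2.2.trans hJ)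
    calc (Q * ij.1 + 1)^2 + (Q * ij.2)^2 ≤ (3 * Q * Y)^2 + (Q * Y)^2 :=
          Nat.add_le_add (Nat.pow_le_pow_left a1 2) (Nat.pow_le_pow_left a2 2)
      _ ≤ _ := by nlinarith [Nat.zero_le (Q*Y)]

open Classical in
/-- the number of pairs with a given value is at most the number of representations -/
lemma fiber_le {Q Y J : ℕ} (hQ : 1 ≤ Q) (s : ℕ) : (((TT Q Y J).filter (fun ij => NN Q ij.1 ij.2 = s)).card : ℝ) ≤ rA s := by
  unfold rA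
  have h : ((TT Q Y J).filter (fun ij => NN Q ij.1 ij.2 = s)).card ≤ (A s).ncard := by
    rw [← Set.ncard_coe_finset]
    apply Set.ncard_le_ncard_of_injOn (fun ij : ℕ × ℕ => (⟨(Q * ij.1 + 1 : ℤ), (Q * ij.2 : ℤ)⟩ : GaussianInt)) _ _ (A_finite s)
    · intro ij hij
      rw [Finset.mem_coe, Finset.mem_filter] at hij
      rw [mem_A, norm_eq, ← hij.2]
      unfold NN
      push_cast; rfl
    · intro ij _ ij' _ h
      simp only [Zsqrtd.mk.injEq] at h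
      have hQ' : (Q:ℤ) ≠ 0 := by positivity
      obtain ⟨h1, h2⟩ := h
      have h3 : (ij.1:ℤ) = ij'.1 := by
        have : (Q:ℤ) * ij.1 = Q * ij'.1 := by linarith
        exact mul_left_cancel₀ hQ' this
      have h4 : (ij.2:ℤ) = ij'.2 := mul_left_cancel₀ hQ' h2
      exact Prod.ext (by exact_mod_cast h3) (by exact_mod_cast h4)
  exact_mod_cast h

/-- lower bound for the sum of squares of the amplitudes -/
lemma amp_lower (hl : LR a) (hX : Function.Injective X) : ∃ (Q : ℕ) (c : ℝ) (δ : ℝ), 1 ≤ Q ∧ 0 < c ∧ 0 < δ ∧ δ ≤ 1 ∧ ∃ Y0 : ℕ, ∀ Y : ℕ, Y0 ≤ Y →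
    ∀ t : ι → ℝ, c * (∑ i, t i ^2) / Y ≤ ∑ s ∈ QS Q Y ⌊δ * Y⌋₊, ‖Zt a φ X t s‖^2 := by
  classical
  obtain ⟨c1, hc1, hl⟩ := hl
  obtain ⟨Q, δ, hQ, hδ, hδ1, Y0, h⟩ := fam_lower hX
  have hQ0 : (0:ℝ) < Q := by exact_mod_cast hQ
  refine ⟨Q, c1^2 * ((4*Q:ℝ)^3)⁻¹ * ((1/4) * δ), δ, hQ, by positivity, hδ, hδ1, Y0 + 1, fun Y hY t => ?_⟩
  have hY1 : 1 ≤ Y := by omega
  have hYp : (0:ℝ) < Y := by exact_mod_cast hY1
  set J := ⌊δ * (Y:ℝ)⌋₊ with hJ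
  have hJY : J ≤ Y := by
    have : (J:ℝ) ≤ Y := (Nat.floor_le (by positivity)).trans (by nlinarith)
    exact_mod_cast this
  have h1 := h Y (by omega) t
  set G : ℕ → ℝ := fun s => ‖∑ l, (t l : ℂ) * e (X l * √(s:ℝ))‖^2 with hG
  have h2 : ∑ ij ∈ TT Q Y J, ‖∑ l, (t l : ℂ) * e (X l * √(NN Q ij.1 ij.2 : ℕ))‖^2 ≤ ∑ s ∈ QS Q Y J, rA s * G s := by
    have h3 : ∑ ij ∈ TT Q Y J, G (NN Q ij.1 ij.2) = ∑ s ∈ QS Q Y J, ∑ ij ∈ (TT Q Y J).filter (fun ij => NN Q ij.1 ij.2 = s), G (NN Q ij.1 ij.2) := by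
      rw [Finset.sum_fiberwise_of_maps_to]
      intro ij hij
      unfold QS
      exact Finset.mem_image_of_mem _ hij
    change ∑ ij ∈ TT Q Y J, G (NN Q ij.1 ij.2) ≤ _
    rw [h3]
    apply Finset.sum_le_sum
    intro s _
    have h4 : ∑ ij ∈ (TT Q Y J).filter (fun ij => NN Q ij.1 ij.2 = s), G (NN Q ij.1 ij.2) =
        (((TT Q Y J).filter (fun ij => NN Q ij.1 ij.2 = s)).card : ℝ) * G s := by
      rw [← nsmul_eq_mul, ← Finset.sum_const]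
      apply Finset.sum_congr rfl
      intro ij hij
      rw [(Finset.mem_filter.mp hij).2]
    rw [h4]
    exact mul_le_mul_of_nonneg_right (fiber_le hQ s) (by positivity)
  have h5 : ∀ s ∈ QS Q Y J, c1^2 * ((4*Q*Y:ℝ)^3)⁻¹ * (rA s * G s) ≤ ‖Zt a φ X t s‖^2 := by
    intro s hs
    obtain ⟨hsf, hs1, hs2⟩ := QS_mem hQ hY1 hJY hs
    have hspos : 1 ≤ s := Nat.one_le_iff_ne_zero.mpr hsf.ne_zero
    have hs0 : (0:ℝ) < s := by exact_mod_cast hspos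
    have hr : 1 ≤ rA s := by
      refine le_trans ?_ (fiber_le (Y := Y) (J := J) hQ s)
      unfold QS at hs
      rw [Finset.mem_image] at hs
      obtain ⟨ij, hij, hijs⟩ := hs
      have : 1 ≤ ((TT Q Y J).filter (fun ij => NN Q ij.1 ij.2 = s)).card :=
        Finset.card_pos.mpr ⟨ij, Finset.mem_filter.mpr ⟨hij, hijs⟩⟩
      exact_mod_cast this
    have hr0 : 0 ≤ rA s := rA_nonneg s
    rw [norm_Zt_eq, mul_pow |a s|, sq_abs]
    have h6 := hl s hspos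
    have h7 : (c1 * (rA s * (s:ℝ) ^ (-(3/4):ℝ)))^2 ≤ (a s)^2 := pow_le_pow_left₀ (by positivity) h6 2
    have h8 : ((s:ℝ) ^ (-(3/4):ℝ))^2 = (s:ℝ) ^ (-(3/2):ℝ) := by
      rw [← Real.rpow_natCast, ← Real.rpow_mul hs0.le]; norm_num
    have h9 : ((4*Q*Y:ℝ)^3)⁻¹ ≤ (s:ℝ) ^ (-(3/2):ℝ) := by
      have h10 : (s:ℝ) ≤ (4*Q*Y:ℝ)^2 := by exact_mod_cast hs2
      have h11 : ((4*Q*Y:ℝ)^2) ^ (-(3/2):ℝ) ≤ (s:ℝ) ^ (-(3/2):ℝ) := Real.rpow_le_rpow_of_nonpos hs0 h10 (by norm_num)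
      refine le_trans (le_of_eq ?_) h11
      rw [← Real.rpow_natCast (4*Q*Y:ℝ) 2, ← Real.rpow_mul (by positivity), ← Real.rpow_natCast, ← Real.rpow_neg (by positivity)]
      norm_num
    have hG0 : 0 ≤ G s := by simp only [hG]; positivity
    calc c1^2 * ((4*Q*Y:ℝ)^3)⁻¹ * (rA s * G s) ≤ c1^2 * (s:ℝ) ^ (-(3/2):ℝ) * (rA s ^2 * G s) := by
          gcongr
          nlinarith
      _ = (c1 * (rA s * (s:ℝ) ^ (-(3/4):ℝ)))^2 * G s := by rw [mul_pow, mul_pow, h8]; ring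
      _ ≤ (a s)^2 * G s := mul_le_mul_of_nonneg_right h7 hG0
  calc c1^2 * ((4*Q:ℝ)^3)⁻¹ * ((1/4) * δ) * (∑ i, t i ^2) / Y = c1^2 * ((4*Q*Y:ℝ)^3)⁻¹ * ((1/4) * δ * (Y:ℝ)^2 * ∑ i, t i ^2) := by
        field_simp
    _ ≤ c1^2 * ((4*Q*Y:ℝ)^3)⁻¹ * ∑ s ∈ QS Q Y J, rA s * G s := by
        apply mul_le_mul_of_nonneg_left (h1.trans h2) (by positivity)
    _ = ∑ s ∈ QS Q Y J, c1^2 * ((4*Q*Y:ℝ)^3)⁻¹ * (rA s * G s) := by rw [Finset.mul_sum]
    _ ≤ _ := Finset.sum_le_sum h5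

/-- decay of the characteristic function of the joint law -/
theorem cf_decay (hα : 0 < α) (hA : ∀ i, Ap a φ (fun n => E n i) α (X i)) (h : LawV E μ)
    (ha : BK a (7/10)) (hl : LR a) (hX : Function.Injective X) :
    ∃ C c : ℝ, 0 < C ∧ 0 < c ∧ ∀ t : ι → ℝ, ‖cf μ t‖ ≤ C * Real.exp (-(c * (∑ i, |t i|) ^ (9/7:ℝ))) := by
  obtain ⟨S0, hS⟩ := exists_S hα
  obtain ⟨Ca, hCa, ha'⟩ := ha
  obtain ⟨Q, c2, δ, hQ, hc2, hδ, hδ1, Y0, hamp⟩ := amp_lower (φ := φ) hl hX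
  set k : ℕ := Fintype.card ι with hk
  set Z := Ca * (∑' t : ℕ, (t:ℝ) ^ (-(2 * (7/10:ℝ)))) with hZ
  have hZ0 : 0 < Z := by
    have hsum : Summable (fun t : ℕ => (t:ℝ) ^ (-(2 * (7/10:ℝ)))) := by
      rw [Real.summable_nat_rpow]; norm_num
    apply mul_pos hCa
    have := hsum.sum_le_tsum {1} (fun t _ => by positivity)
    simp only [Finset.sum_singleton, Nat.cast_one, Real.one_rpow] at this
    linarith
  set Y1 : ℕ := Y0 + S0.sup id + 1 with hY1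
  set T0 : ℝ := ((Y1:ℝ) + 1) ^ (7/5:ℝ) / Z with hT0
  have hT00 : 0 < T0 := by positivity
  set c : ℝ := (5/36) * (c2 / ((k:ℝ) + 1)) / (2 * Z ^ (5/7:ℝ)) with hc
  have hc0 : 0 < c := by positivity
  refine ⟨Real.exp (c * T0 ^ (9/7:ℝ)), c, Real.exp_pos _, hc0, fun t => ?_⟩
  set T : ℝ := ∑ i, |t i| with hT
  have hTn : 0 ≤ T := Finset.sum_nonneg (fun i _ => abs_nonneg _)
  by_cases hTT : T < T0
  · have h1 : ‖cf μ t‖ ≤ 1 := by
      unfold cf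
      refine (norm_integral_le_of_norm_le_const (C := 1) (Eventually.of_forall (fun x => ?_))).trans ?_
      · rw [Complex.norm_exp_ofReal_mul_I]
      · rw [one_mul]; exact measureReal_le_one
    refine h1.trans ?_
    rw [← Real.exp_add]
    apply Real.one_le_exp
    have : T ^ (9/7:ℝ) ≤ T0 ^ (9/7:ℝ) := Real.rpow_le_rpow hTn hTT.le (by norm_num)
    nlinarith
  · push Not at hTT
    have hTpos : 0 < T := by linarith
    set y : ℝ := (Z * T) ^ (5/7:ℝ) with hy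
    have hy0 : 0 < y := by positivity
    have hyκ : y ^ (7/5:ℝ) = Z * T := by
      rw [hy, ← Real.rpow_mul (by positivity)]; norm_num
    have hyY : (Y1:ℝ) + 1 ≤ y := by
      have h1 : ((Y1:ℝ) + 1) ^ (7/5:ℝ) ≤ Z * T := by
        rw [hT0, div_le_iff₀ hZ0] at hTT; linarith
      rw [← hyκ] at h1
      exact (Real.rpow_le_rpow_iff (by positivity) hy0.le (by norm_num)).mp h1
    set Y : ℕ := ⌈y⌉₊ with hYd
    have hY2 : y ≤ Y := Nat.le_ceil _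
    have hY3 : (Y:ℝ) ≤ 2 * y := by
      have : (Y:ℝ) < y + 1 := Nat.ceil_lt_add_one hy0.le
      have : (1:ℝ) ≤ y := by
        have : (0:ℝ) ≤ Y1 := Nat.cast_nonneg _
        linarith
      linarith
    have hYY1 : Y1 + 1 ≤ Y := by
      have : ((Y1 + 1 : ℕ):ℝ) ≤ Y := by push_cast; linarith
      exact_mod_cast this
    have hYpos : 1 ≤ Y := by omega
    have hYp : (0:ℝ) < Y := by exact_mod_cast hYpos
    have hJY : ⌊δ * (Y:ℝ)⌋₊ ≤ Y := by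
      have : ((⌊δ * (Y:ℝ)⌋₊ : ℕ):ℝ) ≤ Y := (Nat.floor_le (by positivity)).trans (by nlinarith)
      exact_mod_cast this
    have hQ' : ∀ s ∈ QS Q Y ⌊δ * (Y:ℝ)⌋₊, Squarefree s ∧ s ∉ S0 := by
      intro s hs
      obtain ⟨h1, h2, -⟩ := QS_mem hQ hYpos hJY hs
      refine ⟨h1, fun hs0 => ?_⟩
      have h3 : s ≤ S0.sup id := Finset.le_sup (f := id) hs0
      nlinarith
    have h1 := cf_bound (κ := 7/10) hS hA h (by norm_num) hCa ha' (t := t) hQ' (by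
      intro s hs
      obtain ⟨h1, h2, -⟩ := QS_mem hQ hYpos hJY hs
      have hs0 : (0:ℝ) < s := by exact_mod_cast (Nat.pos_of_ne_zero h1.ne_zero)
      have h3 : y^2 ≤ (s:ℝ) := by
        have : ((Y^2 : ℕ):ℝ) ≤ s := by exact_mod_cast h2
        push_cast at this
        have : y^2 ≤ (Y:ℝ)^2 := pow_le_pow_left₀ hy0.le hY2 2
        linarith
      have h4 : (s:ℝ) ^ (-(7/10):ℝ) ≤ (y^2) ^ (-(7/10):ℝ) := Real.rpow_le_rpow_of_nonpos (by positivity) h3 (by norm_num)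
      have h5 : (y^2) ^ (-(7/10):ℝ) = (Z * T)⁻¹ := by
        rw [← hyκ, ← Real.rpow_natCast, ← Real.rpow_mul hy0.le, ← Real.rpow_neg hy0.le]; norm_num
      rw [h5] at h4
      calc T * Z * (s:ℝ) ^ (-(7/10):ℝ) ≤ T * Z * (Z * T)⁻¹ := by gcongr
        _ = 1 := by field_simp)
    refine h1.trans ?_
    have hC1 : 1 ≤ Real.exp (c * T0 ^ (9/7:ℝ)) := Real.one_le_exp (by positivity)
    have h2 : Real.exp (-((5/36) * ∑ q ∈ QS Q Y ⌊δ * (Y:ℝ)⌋₊, ‖Zt a φ X t q‖^2)) ≤ Real.exp (-(c * T ^ (9/7:ℝ))) := by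
      apply Real.exp_le_exp.mpr
      apply neg_le_neg
      have h3 := hamp Y (by omega) t
      have h4 : T^2 ≤ ((k:ℝ) + 1) * ∑ i, t i ^2 := by
        have h5 := sq_sum_le_card_mul_sum_sq (s := (Finset.univ : Finset ι)) (f := fun i => |t i|)
        simp only [sq_abs, Finset.card_univ] at h5
        have h6 : 0 ≤ ∑ i, t i ^2 := Finset.sum_nonneg (fun i _ => sq_nonneg _)
        calc T^2 ≤ (k:ℝ) * ∑ i, t i ^2 := h5
          _ ≤ _ := by nlinarith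
      have h7 : T^2 / y = T ^ (9/7:ℝ) / Z ^ (5/7:ℝ) := by
        rw [hy, Real.mul_rpow hZ0.le hTn, div_eq_div_iff (by positivity) (by positivity)]
        have h8 : T^2 = T ^ (9/7:ℝ) * T ^ (5/7:ℝ) := by
          rw [← Real.rpow_add hTpos, ← Real.rpow_natCast]; norm_num
        rw [h8]; ring
      calc c * T ^ (9/7:ℝ) = (5/36) * ((c2 / ((k:ℝ) + 1)) * (T^2 / y) / 2) := by
            rw [h7, hc]; field_simp
        _ ≤ (5/36) * (c2 * (∑ i, t i ^2) / Y) := by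
            apply mul_le_mul_of_nonneg_left _ (by norm_num)
            have h9 : (c2 / ((k:ℝ) + 1)) * (T^2 / y) / 2 = c2 * (T^2 / ((k:ℝ) + 1)) / (2 * y) := by
              field_simp
            rw [h9]
            have h10 : T^2 / ((k:ℝ) + 1) ≤ ∑ i, t i ^2 := by
              rw [div_le_iff₀ (by positivity)]; linarith
            have h11 : 0 ≤ ∑ i, t i ^2 := Finset.sum_nonneg (fun i _ => sq_nonneg _)
            gcongr
        _ ≤ (5/36) * ∑ q ∈ QS Q Y ⌊δ * (Y:ℝ)⌋₊, ‖Zt a φ X t q‖^2 := by gcongr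
    calc _ ≤ Real.exp (-(c * T ^ (9/7:ℝ))) := h2
      _ = 1 * Real.exp (-(c * T ^ (9/7:ℝ))) := (one_mul _).symm
      _ ≤ _ := by gcongr

end Pool.Agent.H425R3.JD
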