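import Mathlib

open MeasureTheory Filter Topology Module
open scoped RealInnerProductSpace

namespace Pool.Agent.H425R3.JD

variable {V : Type*} [NormedAddCommGroup V] [InnerProductSpace ℝ V] [MeasurableSpace V] [BorelSpace V]
  [FiniteDimensional ℝ V]

/-- the gaussian kernel -/
noncomputable def Kc (c : ℝ) (u : V) : ℝ := (Real.pi * c) ^ ((finrank ℝ V : ℝ) / 2) * Real.exp (-Real.pi ^ 2 * c * ‖u‖ ^ 2)

lemma Kc_nonneg {c : ℝ} (hc : 0 < c) (u : V) : 0 ≤ Kc c u := by
  unfold Kc
  have := Real.pi_pos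
  positivity

lemma Kc_cont (c : ℝ) : Continuous (Kc c : V → ℝ) := by unfold Kc; fun_prop

lemma Kc_le {c : ℝ} (hc : 0 < c) (u : V) : Kc c u ≤ (Real.pi * c) ^ ((finrank ℝ V : ℝ) / 2) := by
  unfold Kc
  have h1 : Real.exp (-Real.pi ^ 2 * c * ‖u‖ ^ 2) ≤ 1 := by
    rw [Real.exp_le_one_iff]
    have : 0 ≤ Real.pi ^ 2 * c * ‖u‖ ^ 2 := by positivity
    linarith
  have h2 : 0 ≤ (Real.pi * c) ^ ((finrank ℝ V : ℝ) / 2) := by
    have := Real.pi_pos
    positivity
  calc _ ≤ (Real.pi * c) ^ ((finrank ℝ V : ℝ) / 2) * 1 := mul_le_mul_of_nonneg_left h1 h2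
    _ = _ := mul_one _

lemma Kc_complex {c : ℝ} (hc : 0 < c) (u : V) :
    ((Kc c u : ℝ) : ℂ) = (Real.pi * c : ℂ) ^ (finrank ℝ V / 2 : ℂ) * Complex.exp (-Real.pi ^ 2 * c * ‖u‖ ^ 2) := by
  unfold Kc
  have h : 0 ≤ Real.pi * c := mul_nonneg Real.pi_pos.le hc.le
  rw [Complex.ofReal_mul, Complex.ofReal_cpow h, Complex.ofReal_exp]
  push_cast
  rfl

lemma Kc_integral {c : ℝ} (hc : 0 < c) : ∫ u : V, Kc c u = 1 := by
  unfold Kc
  rw [integral_const_mul]
  have h := GaussianFourier.integral_rexp_neg_mul_sq_norm (V := V) (b := Real.pi ^ 2 * c) (by positivity)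
  have e : (fun v : V => Real.exp (-Real.pi ^ 2 * c * ‖v‖ ^ 2)) = fun v : V => Real.exp (-(Real.pi ^ 2 * c) * ‖v‖ ^ 2) := by
    funext v; congr 1; ring
  rw [e, h, ← Real.mul_rpow (by positivity) (by positivity)]
  have : Real.pi * c * (Real.pi / (Real.pi ^ 2 * c)) = 1 := by
    have := Real.pi_pos.ne'
    field_simp
  rw [this, Real.one_rpow]

lemma Kc_integrable {c : ℝ} (hc : 0 < c) : Integrable (Kc c : V → ℝ) := by
  by_contra h
  have := integral_undef h
  rw [Kc_integral hc] at this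
  exact one_ne_zero this

variable (m : Measure V) [IsProbabilityMeasure m]

/-- the rescaled characteristic function -/
noncomputable def Psi (ξ : V) : ℂ := ∫ y, Complex.exp (((2 * Real.pi * ⟪ξ, y⟫ : ℝ) : ℂ) * Complex.I) ∂m

/-- its Fourier transform -/
noncomputable def G0 (x : V) : ℂ := ∫ ξ, Complex.exp (((-(2 * Real.pi * ⟪ξ, x⟫) : ℝ) : ℂ) * Complex.I) * Psi m ξ

lemma smooth_id {c : ℝ} (hc : 0 < c) (w : V) :
    ∫ ξ, Complex.exp (-(c:ℂ)⁻¹ * ‖ξ‖ ^ 2) • (Complex.exp (((-(2 * Real.pi * ⟪ξ, w⟫) : ℝ) : ℂ) * Complex.I) * Psi m ξ) =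
      ((∫ y, Kc c (y - w) ∂m : ℝ) : ℂ) := by
  have h1 : ∀ ξ : V, Complex.exp (-(c:ℂ)⁻¹ * ‖ξ‖ ^ 2) • (Complex.exp (((-(2 * Real.pi * ⟪ξ, w⟫) : ℝ) : ℂ) * Complex.I) * Psi m ξ) =
      ∫ y, Complex.exp (-(c:ℂ)⁻¹ * ‖ξ‖ ^ 2 + (2 * Real.pi * Complex.I) * ((⟪y - w, ξ⟫ : ℝ) : ℂ)) ∂m := by
    intro ξ
    unfold Psi
    rw [smul_eq_mul, ← mul_assoc, ← integral_const_mul]
    congr 1
    funext y
    rw [← Complex.exp_add, ← Complex.exp_add]
    congr 1
    rw [inner_sub_left, real_inner_comm ξ y, real_inner_comm ξ w]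
    push_cast; ring
  simp_rw [h1]
  rw [integral_integral_swap]
  · rw [← integral_complex_ofReal]
    congr 1
    funext y
    have h2 := GaussianFourier.integral_cexp_neg_mul_sq_norm_add (V := V) (b := (c:ℂ)⁻¹) (by
      rw [← Complex.ofReal_inv, Complex.ofReal_re]; positivity) (2 * Real.pi * Complex.I) (y - w)
    rw [h2, Kc_complex hc]
    have hc' : (c:ℂ) ≠ 0 := by exact_mod_cast hc.ne'
    congr 1
    · congr 1
      field_simp
    · congr 1
      have hI : Complex.I ^ 2 = -1 := Complex.I_sq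
      field_simp
      rw [hI]
      ring
  · have h2 : Integrable (fun z : V × V => Real.exp (-c⁻¹ * ‖z.1‖^2) * (1:ℝ)) (volume.prod m) := by
      apply Integrable.mul_prod (f := fun v : V => Real.exp (-c⁻¹ * ‖v‖^2)) (g := fun _ : V => (1:ℝ)) _ (integrable_const (1:ℝ))
      have h3 := GaussianFourier.integrable_cexp_neg_mul_sq_norm_add (V := V) (b := ((c⁻¹ : ℝ) : ℂ)) (by
        rw [Complex.ofReal_re]; positivity) 0 (0 : V)
      have h4 := h3.norm
      refine h4.congr (Eventually.of_forall (fun v => ?_))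
      simp only [zero_mul, add_zero]
      rw [Complex.norm_exp]
      congr 1
      have : -((c⁻¹ : ℝ) : ℂ) * (‖v‖ : ℂ)^2 = ((-c⁻¹ * ‖v‖^2 : ℝ) : ℂ) := by push_cast; ring
      rw [this, Complex.ofReal_re]
    apply h2.mono'
    · apply Continuous.aestronglyMeasurable
      unfold Function.uncurry
      fun_prop
    · refine Eventually.of_forall (fun z => ?_)
      rw [mul_one]
      unfold Function.uncurry
      rw [Complex.norm_exp]
      apply le_of_eq
      congr 1
      rw [Complex.add_re]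
      have e1 : (-(c:ℂ)⁻¹ * (‖z.1‖ : ℂ)^2).re = -c⁻¹ * ‖z.1‖^2 := by
        have : -(c:ℂ)⁻¹ * (‖z.1‖ : ℂ)^2 = ((-c⁻¹ * ‖z.1‖^2 : ℝ) : ℂ) := by push_cast; ring
        rw [this, Complex.ofReal_re]
      have e2 : ((2 * (Real.pi:ℂ) * Complex.I) * ((⟪z.2 - w, z.1⟫ : ℝ) : ℂ)).re = 0 := by
        have : (2 * (Real.pi:ℂ) * Complex.I) * ((⟪z.2 - w, z.1⟫ : ℝ) : ℂ) = ((2 * Real.pi * ⟪z.2 - w, z.1⟫ : ℝ) : ℂ) * Complex.I := by
          push_cast; ring
        rw [this, Complex.re_ofReal_mul, Complex.I_re, mul_zero]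
      rw [e1, e2, add_zero]

variable {m}

lemma char_mul_integrable (hi : Integrable (Psi m)) (w : V) :
    Integrable (fun ξ : V => Complex.exp (((-(2 * Real.pi * ⟪ξ, w⟫) : ℝ) : ℂ) * Complex.I) * Psi m ξ) := by
  refine hi.norm.mono' ?_ (Eventually.of_forall (fun ξ => ?_))
  · apply AEStronglyMeasurable.mul _ hi.1
    apply Continuous.aestronglyMeasurable; fun_prop
  · rw [norm_mul, Complex.norm_exp_ofReal_mul_I, one_mul]

/-- convergence of the smoothed densities -/
lemma G0_lim (hi : Integrable (Psi m)) (w : V) :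
    Tendsto (fun c : ℝ => ((∫ y, Kc c (y - w) ∂m : ℝ) : ℂ)) atTop (𝓝 (G0 m w)) := by
  have h1 := Real.tendsto_integral_cexp_sq_smul (char_mul_integrable hi w)
  refine h1.congr' ?_
  filter_upwards [Ioi_mem_atTop 0] with c hc
  rw [← smooth_id m hc w]
  simp only [Complex.ofReal_inv]

lemma G0_pos (hi : Integrable (Psi m)) (w : V) : 0 ≤ (G0 m w).re ∧ (G0 m w).im = 0 := by
  have hcl : IsClosed {z : ℂ | 0 ≤ z.re ∧ z.im = 0} :=
    (isClosed_le continuous_const Complex.continuous_re).inter (isClosed_eq Complex.continuous_im continuous_const)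
  refine hcl.mem_of_tendsto (G0_lim hi w) ?_
  filter_upwards [Ioi_mem_atTop 0] with c hc
  refine ⟨?_, Complex.ofReal_im _⟩
  rw [Complex.ofReal_re]
  exact integral_nonneg (fun y => Kc_nonneg hc _)

lemma smooth_bound (hi : Integrable (Psi m)) {c : ℝ} (hc : 0 < c) (w : V) :
    ‖((∫ y, Kc c (y - w) ∂m : ℝ) : ℂ)‖ ≤ ∫ ξ, ‖Psi m ξ‖ := by
  rw [← smooth_id m hc w]
  refine norm_integral_le_of_norm_le hi.norm (Eventually.of_forall (fun ξ => ?_))
  rw [norm_smul, norm_mul, Complex.norm_exp_ofReal_mul_I, one_mul, Complex.norm_exp]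
  have e1 : (-(c:ℂ)⁻¹ * (‖ξ‖ : ℂ)^2).re = -c⁻¹ * ‖ξ‖^2 := by
    have : -(c:ℂ)⁻¹ * (‖ξ‖ : ℂ)^2 = ((-c⁻¹ * ‖ξ‖^2 : ℝ) : ℂ) := by push_cast; ring
    rw [this, Complex.ofReal_re]
  rw [e1]
  have : Real.exp (-c⁻¹ * ‖ξ‖^2) ≤ 1 := by
    rw [Real.exp_le_one_iff]
    have : 0 ≤ c⁻¹ * ‖ξ‖^2 := by positivity
    linarith
  exact mul_le_of_le_one_left (norm_nonneg _) this

lemma G0_cont (hi : Integrable (Psi m)) : Continuous (G0 m) := by
  unfold G0
  apply continuous_of_dominated (bound := fun ξ => ‖Psi m ξ‖)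
  · intro w; exact (char_mul_integrable hi w).1
  · intro w
    exact Eventually.of_forall (fun ξ => by rw [norm_mul, Complex.norm_exp_ofReal_mul_I, one_mul])
  · exact hi.norm
  · exact Eventually.of_forall (fun ξ => by fun_prop)

/-- integrals of test functions -/
theorem test_int (hi : Integrable (Psi m)) {f : V → ℝ} (hf : Continuous f) (hfi : Integrable f) {B : ℝ} (hB : ∀ x, |f x| ≤ B) :
    ((∫ y, f y ∂m : ℝ) : ℂ) = ∫ w, G0 m w * (f w : ℂ) := by
  have hB0 : 0 ≤ B := (abs_nonneg _).trans (hB 0)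
  -- the smoothed integrals
  have h1 : Tendsto (fun c : ℝ => ∫ y, (∫ w, ((Real.pi * c : ℂ) ^ (finrank ℝ V / 2 : ℂ) *
      Complex.exp (-Real.pi ^ 2 * c * ‖y - w‖ ^ 2)) • (f w : ℂ)) ∂m) atTop (𝓝 (∫ y, (f y : ℂ) ∂m)) := by
    apply tendsto_integral_filter_of_dominated_convergence (fun _ => B)
    · filter_upwards [Ioi_mem_atTop 0] with c hc
      apply AEStronglyMeasurable.integral_prod_right' (f := fun z : V × V => ((Real.pi * c : ℂ) ^ (finrank ℝ V / 2 : ℂ) *
        Complex.exp (-Real.pi ^ 2 * c * ‖z.1 - z.2‖ ^ 2)) • (f z.2 : ℂ))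
      apply Continuous.aestronglyMeasurable
      fun_prop
    · filter_upwards [Ioi_mem_atTop 0] with c hc
      refine Eventually.of_forall (fun y => ?_)
      have hk : Integrable (fun w : V => Kc c (y - w)) := (Kc_integrable hc).comp_sub_left y
      have hk1 : ∫ w : V, Kc c (y - w) = 1 := by
        rw [integral_sub_left_eq_self (Kc c) volume y]; exact Kc_integral hc
      refine (norm_integral_le_of_norm_le (hk.mul_const B) (Eventually.of_forall (fun w => ?_))).trans (le_of_eq ?_)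
      · rw [← Kc_complex hc (y - w), norm_smul, Complex.norm_real, Complex.norm_real, Real.norm_eq_abs, Real.norm_eq_abs,
          abs_of_nonneg (Kc_nonneg hc _)]
        exact mul_le_mul_of_nonneg_left (hB w) (Kc_nonneg hc _)
      · rw [integral_mul_const, hk1, one_mul]
    · exact integrable_const B
    · refine Eventually.of_forall (fun y => ?_)
      exact Real.tendsto_integral_gaussian_smul' (f := fun w => (f w : ℂ)) hfi.ofReal
        (Complex.continuous_ofReal.comp hf).continuousAt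
  have h2 : Tendsto (fun c : ℝ => ∫ w, ((∫ y, Kc c (y - w) ∂m : ℝ) : ℂ) * (f w : ℂ)) atTop (𝓝 (∫ w, G0 m w * (f w : ℂ))) := by
    apply tendsto_integral_filter_of_dominated_convergence (fun w => (∫ ξ, ‖Psi m ξ‖) * |f w|)
    · filter_upwards [Ioi_mem_atTop 0] with c hc
      apply AEStronglyMeasurable.mul
      · apply Complex.continuous_ofReal.comp_aestronglyMeasurable
        apply AEStronglyMeasurable.integral_prod_right' (f := fun z : V × V => Kc c (z.2 - z.1))
        apply Continuous.aestronglyMeasurable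
        have := Kc_cont (V := V) c
        fun_prop
      · apply Continuous.aestronglyMeasurable; fun_prop
    · filter_upwards [Ioi_mem_atTop 0] with c hc
      refine Eventually.of_forall (fun w => ?_)
      rw [norm_mul, Complex.norm_real (f w), Real.norm_eq_abs]
      exact mul_le_mul_of_nonneg_right (smooth_bound hi hc w) (abs_nonneg _)
    · exact hfi.abs.const_mul _
    · refine Eventually.of_forall (fun w => ?_)
      exact (G0_lim hi w).mul_const _
  have h3 : (fun c : ℝ => ∫ y, (∫ w, ((Real.pi * c : ℂ) ^ (finrank ℝ V / 2 : ℂ) *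
      Complex.exp (-Real.pi ^ 2 * c * ‖y - w‖ ^ 2)) • (f w : ℂ)) ∂m) =ᶠ[atTop]
      (fun c : ℝ => ∫ w, ((∫ y, Kc c (y - w) ∂m : ℝ) : ℂ) * (f w : ℂ)) := by
    filter_upwards [Ioi_mem_atTop 0] with c hc
    rw [integral_integral_swap]
    · congr 1
      funext w
      rw [← integral_complex_ofReal, ← integral_mul_const]
      congr 1
      funext y
      rw [← Kc_complex hc, smul_eq_mul]
    · have hint : Integrable (fun z : V × V => (1:ℝ) * ((Real.pi * c) ^ ((finrank ℝ V : ℝ) / 2) * |f z.2|)) (m.prod volume) :=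
        (integrable_const (1:ℝ)).mul_prod (hfi.abs.const_mul _)
      apply hint.mono'
      · apply Continuous.aestronglyMeasurable
        unfold Function.uncurry
        fun_prop
      · refine Eventually.of_forall (fun z => ?_)
        unfold Function.uncurry
        beta_reduce
        rw [← Kc_complex hc, norm_smul, Complex.norm_real, Complex.norm_real, Real.norm_eq_abs, Real.norm_eq_abs,
          abs_of_nonneg (Kc_nonneg hc _), one_mul]
        exact mul_le_mul_of_nonneg_right (Kc_le hc _) (abs_nonneg _)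
  have h4 := tendsto_nhds_unique (h1.congr' h3) h2
  rw [← integral_complex_ofReal]
  exact h4

/-- the density -/
theorem eq_withDensity (hi : Integrable (Psi m)) : m = volume.withDensity (fun x : V => ENNReal.ofReal (G0 m x).re) := by
  have hcr : Continuous (fun x : V => (G0 m x).re) := Complex.continuous_re.comp (G0_cont hi)
  haveI : IsLocallyFiniteMeasure (volume.withDensity (fun x : V => ENNReal.ofReal (G0 m x).re)) :=
    IsLocallyFiniteMeasure.withDensity_ofReal hcr
  apply Measure.ext_of_integral_eq_on_compactlySupported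
  intro f
  obtain ⟨B, hB⟩ := f.hasCompactSupport.exists_bound_of_continuous f.continuous
  have hfi : Integrable (f : V → ℝ) := f.continuous.integrable_of_hasCompactSupport f.hasCompactSupport
  have h1 : ((∫ y, f y ∂m : ℝ) : ℂ) = ∫ w, G0 m w * (f w : ℂ) :=
    test_int hi f.continuous hfi (fun x => by have := hB x; rwa [Real.norm_eq_abs] at this)
  have h2 : ∫ w, G0 m w * (f w : ℂ) = ((∫ w, (G0 m w).re * f w : ℝ) : ℂ) := by
    rw [← integral_complex_ofReal]
    congr 1
    funext w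
    have h3 : G0 m w = (((G0 m w).re : ℝ) : ℂ) := by
      apply Complex.ext
      · rw [Complex.ofReal_re]
      · rw [Complex.ofReal_im]; exact (G0_pos hi w).2
    rw [Complex.ofReal_mul, ← h3]
  rw [h2] at h1
  have h3 : ∫ y, f y ∂m = ∫ w, (G0 m w).re * f w := by exact_mod_cast h1
  rw [h3, integral_withDensity_eq_integral_toReal_smul hcr.measurable.ennreal_ofReal (Eventually.of_forall (fun x => ENNReal.ofReal_lt_top))]
  congr 1
  funext w
  rw [ENNReal.toReal_ofReal (G0_pos hi w).1, smul_eq_mul]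

end Pool.Agent.H425R3.JD
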