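import Mathlib
import Pool.Agent.H425R3.JD.D1
import Pool.Agent.H425R3.JD.B2
import Pool.Agent.H383.EntDens

open MeasureTheory Filter Topology Module
open scoped RealInnerProductSpace

namespace Pool.Agent.H425R3.JD

variable {ι : Type*} [Fintype ι] {μ : ProbabilityMeasure (ι → ℝ)}

lemma cf_cont (μ : ProbabilityMeasure (ι → ℝ)) : Continuous (cf μ) := by
  unfold cf
  apply continuous_of_dominated (bound := fun _ => (1:ℝ))
  · intro t
    apply Continuous.aestronglyMeasurable; fun_prop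
  · intro t
    exact Eventually.of_forall (fun x => by rw [Complex.norm_exp_ofReal_mul_I])
  · exact integrable_const _
  · exact Eventually.of_forall (fun x => by fun_prop)

/-- the rescaled characteristic function -/
noncomputable def Ph (μ : ProbabilityMeasure (ι → ℝ)) (v : ι → ℝ) : ℂ := cf μ (fun i => 2 * Real.pi * v i)

lemma Ph_cont (μ : ProbabilityMeasure (ι → ℝ)) : Continuous (Ph μ) := by
  unfold Ph
  exact (cf_cont μ).comp (by fun_prop)

/-- the product majorant -/
noncomputable def mj (v : ι → ℝ) : ℝ := ∏ i, (1 + v i ^ 2)⁻¹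

lemma mj_integrable : Integrable (mj : (ι → ℝ) → ℝ) := by
  unfold mj
  exact Integrable.fintype_prod (fun _ => integrable_inv_one_add_sq)

lemma mj_ge (v : ι → ℝ) : Real.exp (-(2 * ∑ i, |v i|)) ≤ mj v := by
  unfold mj
  rw [Finset.mul_sum, ← Finset.sum_neg_distrib, Real.exp_sum]
  apply Finset.prod_le_prod
  · intro i _; positivity
  · intro i _
    have h3 := Real.add_one_le_exp |v i|
    have h4 : Real.exp (2 * |v i|) = Real.exp |v i| * Real.exp |v i| := by rw [← Real.exp_add]; ring_nf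
    have h2 : 1 + (v i)^2 ≤ Real.exp (2 * |v i|) := by
      rw [h4, ← sq_abs]
      nlinarith [abs_nonneg (v i), Real.exp_pos |v i|]
    rw [Real.exp_neg]
    exact inv_anti₀ (by positivity) h2

/-- superexponential decay gives integrable majorants -/
lemma dom {C c p : ℝ} (hc : 0 < c) (hp : 1 < p) (hC : 0 ≤ C)
    (h : ∀ t : ι → ℝ, ‖cf μ t‖ ≤ C * Real.exp (-(c * (∑ i, |t i|) ^ p))) {b : ℝ} (hb : 0 ≤ b) :
    ∃ K : ℝ, 0 ≤ K ∧ ∀ v : ι → ℝ, Real.exp (b * ∑ i, |v i|) * ‖Ph μ v‖ ≤ K * mj v := by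
  obtain ⟨K, hK, hd⟩ := Pool.Agent.H383.ED.dom1 hc hp (b := b + 2) (by linarith)
  refine ⟨C * Real.exp K, by positivity, fun v => ?_⟩
  set S : ℝ := ∑ i, |v i| with hS
  have hS0 : 0 ≤ S := Finset.sum_nonneg (fun i _ => abs_nonneg _)
  have h1 : ‖Ph μ v‖ ≤ C * Real.exp (-(c * S ^ p)) := by
    unfold Ph
    refine (h _).trans ?_
    apply mul_le_mul_of_nonneg_left _ hC
    apply Real.exp_le_exp.mpr
    apply neg_le_neg
    apply mul_le_mul_of_nonneg_left _ hc.le
    apply Real.rpow_le_rpow hS0 _ (by linarith)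
    rw [hS]
    apply Finset.sum_le_sum
    intro i _
    rw [abs_mul, abs_of_pos (by positivity : 0 < 2 * Real.pi)]
    have : 3 < Real.pi := Real.pi_gt_three
    nlinarith [abs_nonneg (v i)]
  have h2 := hd S
  rw [abs_of_nonneg hS0] at h2
  calc Real.exp (b * S) * ‖Ph μ v‖ ≤ Real.exp (b * S) * (C * Real.exp (-(c * S ^ p))) := by gcongr
    _ = C * Real.exp (b * S + -(c * S ^ p)) := by rw [Real.exp_add]; ring
    _ ≤ C * Real.exp (K + -(2 * S)) := by
        apply mul_le_mul_of_nonneg_left _ hC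
        apply Real.exp_le_exp.mpr
        linarith
    _ = C * Real.exp K * Real.exp (-(2 * S)) := by rw [Real.exp_add]; ring
    _ ≤ C * Real.exp K * mj v := by
        apply mul_le_mul_of_nonneg_left (mj_ge v) (by positivity)

lemma Ph_integrable {C c p : ℝ} (hc : 0 < c) (hp : 1 < p) (hC : 0 ≤ C)
    (h : ∀ t : ι → ℝ, ‖cf μ t‖ ≤ C * Real.exp (-(c * (∑ i, |t i|) ^ p))) : Integrable (Ph μ) := by
  obtain ⟨K, hK, hb⟩ := dom hc hp hC h (b := 0) le_rfl
  apply (mj_integrable.const_mul K).mono' (Ph_cont μ).aestronglyMeasurable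
  refine Eventually.of_forall (fun v => ?_)
  have := hb v
  rwa [zero_mul, Real.exp_zero, one_mul] at this

/-- the linear forms -/
noncomputable def Lf (v : ι → ℝ) : (ι → ℂ) →L[ℂ] ℂ :=
  ∑ j, (((-2 * Real.pi * v j : ℝ) : ℂ) * Complex.I) • (ContinuousLinearMap.proj j : (ι → ℂ) →L[ℂ] ℂ)

lemma Lf_apply (v : ι → ℝ) (z : ι → ℂ) : Lf v z = ∑ j, ((-2 * Real.pi * v j : ℝ) : ℂ) * Complex.I * z j := by
  unfold Lf
  rw [ContinuousLinearMap.sum_apply]
  apply Finset.sum_congr rfl
  intro j _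
  rw [ContinuousLinearMap.smul_apply, ContinuousLinearMap.proj_apply, smul_eq_mul]

lemma Lf_cont : Continuous (Lf : (ι → ℝ) → (ι → ℂ) →L[ℂ] ℂ) := by
  unfold Lf
  apply continuous_finset_sum
  intro j _
  have h1 : Continuous (fun v : ι → ℝ => ((-2 * Real.pi * v j : ℝ) : ℂ) * Complex.I) := by fun_prop
  exact h1.smul (continuous_const (y := (ContinuousLinearMap.proj j : (ι → ℂ) →L[ℂ] ℂ)))

lemma Lf_norm (v : ι → ℝ) : ‖Lf v‖ ≤ 2 * Real.pi * ∑ j, |v j| := by
  apply ContinuousLinearMap.opNorm_le_bound _ (by have := Real.pi_pos; positivity)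
  intro z
  rw [Lf_apply, Finset.mul_sum, Finset.sum_mul]
  refine (norm_sum_le _ _).trans (Finset.sum_le_sum (fun j _ => ?_))
  rw [norm_mul, norm_mul, Complex.norm_I, mul_one, Complex.norm_real, Real.norm_eq_abs, abs_mul, abs_mul, abs_neg, abs_two,
    abs_of_pos Real.pi_pos]
  exact mul_le_mul_of_nonneg_left (norm_le_pi_norm z j) (by have := Real.pi_pos; positivity)

lemma Lf_re (v : ι → ℝ) (z : ι → ℂ) : (Lf v z).re ≤ 2 * Real.pi * ‖z‖ * ∑ j, |v j| := by
  calc (Lf v z).re ≤ ‖Lf v z‖ := Complex.re_le_norm _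
    _ ≤ ‖Lf v‖ * ‖z‖ := ContinuousLinearMap.le_opNorm _ _
    _ ≤ (2 * Real.pi * ∑ j, |v j|) * ‖z‖ := mul_le_mul_of_nonneg_right (Lf_norm v) (norm_nonneg _)
    _ = _ := by ring

/-- the entire extension of the density -/
noncomputable def GC (μ : ProbabilityMeasure (ι → ℝ)) (z : ι → ℂ) : ℂ := ∫ v : ι → ℝ, Complex.exp (Lf v z) * Ph μ v

theorem GC_diff {C c p : ℝ} (hc : 0 < c) (hp : 1 < p) (hC : 0 ≤ C)
    (h : ∀ t : ι → ℝ, ‖cf μ t‖ ≤ C * Real.exp (-(c * (∑ i, |t i|) ^ p))) : Differentiable ℂ (GC μ) := by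
  intro z0
  obtain ⟨K, hK, hb⟩ := dom hc hp hC h (b := 2 * Real.pi * (‖z0‖ + 1) + 2 * Real.pi) (by have := Real.pi_pos; positivity)
  have hint : Integrable (fun v : ι → ℝ => K * mj v) := mj_integrable.const_mul K
  have hPh := Ph_cont μ
  have hL := Lf_cont (ι := ι)
  have hLz : ∀ z : ι → ℂ, Continuous (fun v : ι → ℝ => Lf v z) := fun z => by
    simp only [Lf_apply]; fun_prop
  have hder := hasFDerivAt_integral_of_dominated_of_fderiv_le (μ := (volume : Measure (ι → ℝ))) (𝕜 := ℂ)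
    (F := fun (z : ι → ℂ) v => Complex.exp (Lf v z) * Ph μ v)
    (F' := fun z v => (Complex.exp (Lf v z) * Ph μ v) • Lf v)
    (x₀ := z0) (s := Metric.ball z0 1) (bound := fun v => K * mj v) (Metric.ball_mem_nhds z0 one_pos)
    (Eventually.of_forall (fun z => by
      apply Continuous.aestronglyMeasurable
      exact (Complex.continuous_exp.comp (hLz z)).mul hPh))
    (by
      apply hint.mono'
      · apply Continuous.aestronglyMeasurable
        exact (Complex.continuous_exp.comp (hLz z0)).mul hPh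
      refine Eventually.of_forall (fun v => ?_)
      rw [norm_mul, Complex.norm_exp]
      refine le_trans ?_ (hb v)
      gcongr
      have hS : 0 ≤ ∑ i, |v i| := Finset.sum_nonneg (fun i _ => abs_nonneg _)
      refine (Lf_re v z0).trans ?_
      have hpi := Real.pi_pos
      nlinarith [mul_nonneg hpi.le hS])
    (by
      apply Continuous.aestronglyMeasurable
      exact ((Complex.continuous_exp.comp (hLz z0)).mul hPh).smul hL)
    (Eventually.of_forall (fun v z hz => by
      have hS : 0 ≤ ∑ i, |v i| := Finset.sum_nonneg (fun i _ => abs_nonneg _)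
      have hpi := Real.pi_pos
      rw [norm_smul, norm_mul, Complex.norm_exp]
      refine le_trans ?_ (hb v)
      have hz1 : ‖z‖ ≤ ‖z0‖ + 1 := by
        have h4 : ‖z - z0‖ < 1 := by rwa [mem_ball_iff_norm] at hz
        have h5 := norm_sub_norm_le z z0
        linarith
      have h1 : ‖Lf v‖ ≤ Real.exp (2 * Real.pi * ∑ i, |v i|) := by
        refine (Lf_norm v).trans ?_
        have := Real.add_one_le_exp (2 * Real.pi * ∑ i, |v i|)
        linarith
      have h2 : Real.exp (Lf v z).re ≤ Real.exp (2 * Real.pi * (‖z0‖ + 1) * ∑ i, |v i|) := by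
        apply Real.exp_le_exp.mpr
        refine (Lf_re v z).trans ?_
        gcongr
      calc Real.exp (Lf v z).re * ‖Ph μ v‖ * ‖Lf v‖ ≤ Real.exp (2 * Real.pi * (‖z0‖ + 1) * ∑ i, |v i|) * ‖Ph μ v‖ *
            Real.exp (2 * Real.pi * ∑ i, |v i|) := by gcongr
        _ = Real.exp ((2 * Real.pi * (‖z0‖ + 1) + 2 * Real.pi) * ∑ i, |v i|) * ‖Ph μ v‖ := by
            rw [add_mul, Real.exp_add]; ring))
    hint
    (Eventually.of_forall (fun v z _ => by
      have h1 : HasFDerivAt (fun z : ι → ℂ => Lf v z) (Lf v) z := (Lf v).hasFDerivAt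
      have h2 := h1.cexp.mul_const (Ph μ v)
      have e : (Complex.exp (Lf v z) * Ph μ v) • Lf v = Ph μ v • Complex.exp ((Lf v) z) • Lf v := by
        rw [smul_smul, mul_comm]
      rw [e]
      exact h2))
  exact hder.differentiableAt

/-- transfer to euclidean space -/
noncomputable def mE (μ : ProbabilityMeasure (ι → ℝ)) : Measure (EuclideanSpace ℝ ι) :=
  (μ : Measure (ι → ℝ)).map (WithLp.toLp 2)

lemma toLp_meas : Measurable (WithLp.toLp 2 : (ι → ℝ) → EuclideanSpace ℝ ι) :=
  (PiLp.continuous_toLp 2 (fun _ : ι => ℝ)).measurable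

lemma ofLp_meas : Measurable (WithLp.ofLp : EuclideanSpace ℝ ι → (ι → ℝ)) :=
  (PiLp.continuous_ofLp 2 (fun _ : ι => ℝ)).measurable

instance : IsProbabilityMeasure (mE μ) := Measure.isProbabilityMeasure_map toLp_meas.aemeasurable

lemma Psi_eq (ξ : EuclideanSpace ℝ ι) : Psi (mE μ) ξ = Ph μ (WithLp.ofLp ξ) := by
  unfold Psi mE Ph cf
  rw [integral_map toLp_meas.aemeasurable (by apply Continuous.aestronglyMeasurable; fun_prop)]
  congr 1
  funext x
  congr 3
  rw [PiLp.inner_apply, Finset.mul_sum]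
  apply Finset.sum_congr rfl
  intro i _
  simp only [RCLike.inner_apply, conj_trivial]
  ring

lemma ofLp_emb : MeasurableEmbedding (WithLp.ofLp : EuclideanSpace ℝ ι → (ι → ℝ)) :=
  (MeasurableEquiv.toLp 2 (ι → ℝ)).symm.measurableEmbedding

lemma Psi_integrable (hi : Integrable (Ph μ)) : Integrable (Psi (mE μ)) := by
  have h1 : Psi (mE μ) = Ph μ ∘ WithLp.ofLp := by funext ξ; exact Psi_eq ξ
  rw [h1]
  exact ((PiLp.volume_preserving_ofLp ι).integrable_comp_emb ofLp_emb).mpr hi

lemma G0_eq (v : EuclideanSpace ℝ ι) : G0 (mE μ) v = GC μ (fun i => ((WithLp.ofLp v i : ℝ) : ℂ)) := by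
  unfold G0 GC
  rw [← (PiLp.volume_preserving_ofLp ι).integral_comp ofLp_emb]
  congr 1
  funext ξ
  rw [Psi_eq]
  congr 2
  rw [Lf_apply, PiLp.inner_apply]
  push_cast
  rw [Finset.mul_sum, ← Finset.sum_neg_distrib, Finset.sum_mul]
  apply Finset.sum_congr rfl
  intro i _
  simp only [RCLike.inner_apply, conj_trivial]
  push_cast
  ring

/-- the density of the joint law -/
theorem density {C c p : ℝ} (hc : 0 < c) (hp : 1 < p) (hC : 0 ≤ C)
    (h : ∀ t : ι → ℝ, ‖cf μ t‖ ≤ C * Real.exp (-(c * (∑ i, |t i|) ^ p))) :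
    ∃ g : (ι → ℂ) → ℂ, Differentiable ℂ g ∧ (∀ x : ι → ℝ, 0 ≤ (g (fun i => (x i : ℂ))).re ∧ (g (fun i => (x i : ℂ))).im = 0) ∧
      (μ : Measure (ι → ℝ)) = volume.withDensity (fun x : ι → ℝ => ENNReal.ofReal (g (fun i => (x i : ℂ))).re) ∧
      ∀ A : Set (ι → ℝ), IsOpen A → A.Nonempty → 0 < (μ : Measure (ι → ℝ)) A := by
  have hi : Integrable (Ph μ) := Ph_integrable hc hp hC h
  have hd : Differentiable ℂ (GC μ) := GC_diff hc hp hC h
  have hPi := Psi_integrable hi
  have hpos : ∀ x : ι → ℝ, 0 ≤ (GC μ (fun i => (x i : ℂ))).re ∧ (GC μ (fun i => (x i : ℂ))).im = 0 := by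
    intro x
    have h1 := G0_pos hPi (WithLp.toLp 2 x)
    rw [G0_eq] at h1
    exact h1
  have hcont : Continuous (fun x : ι → ℝ => GC μ (fun i => (x i : ℂ))) := hd.continuous.comp (by fun_prop)
  have hcr : Continuous (fun x : ι → ℝ => (GC μ (fun i => (x i : ℂ))).re) := Complex.continuous_re.comp hcont
  have hμ : (μ : Measure (ι → ℝ)) = volume.withDensity (fun x : ι → ℝ => ENNReal.ofReal (GC μ (fun i => (x i : ℂ))).re) := by
    have h1 := eq_withDensity hPi
    ext A hA
    have h2 : (μ : Measure (ι → ℝ)) A = mE μ (WithLp.ofLp ⁻¹' A) := by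
      unfold mE
      rw [Measure.map_apply toLp_meas (ofLp_meas hA)]
      rfl
    rw [h2, h1, withDensity_apply _ (ofLp_meas hA), withDensity_apply _ hA]
    rw [← (PiLp.volume_preserving_ofLp ι).setLIntegral_comp_preimage hA hcr.measurable.ennreal_ofReal]
    congr 1
    funext v
    rw [G0_eq]
  refine ⟨GC μ, hd, hpos, hμ, ?_⟩
  intro A hA hne
  by_contra hcon
  have h0 : (μ : Measure (ι → ℝ)) A = 0 := le_antisymm (not_lt.mp hcon) bot_le
  rw [hμ, withDensity_apply _ hA.measurableSet, lintegral_eq_zero_iff hcr.measurable.ennreal_ofReal] at h0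
  -- the density vanishes on `A`
  have hz : ∀ x ∈ A, GC μ (fun i => (x i : ℂ)) = 0 := by
    intro x hx
    by_contra hxne
    have hre : 0 < (GC μ (fun i => (x i : ℂ))).re := by
      rcases (hpos x).1.lt_or_eq with h1 | h1
      · exact h1
      · exact absurd (Complex.ext h1.symm (hpos x).2) hxne
    set W : Set (ι → ℝ) := A ∩ {y | 0 < (GC μ (fun i => (y i : ℂ))).re} with hW
    have hWo : IsOpen W := hA.inter (isOpen_lt continuous_const hcr)
    have hWn : W.Nonempty := ⟨x, hx, hre⟩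
    have hWp : 0 < volume W := hWo.measure_pos volume hWn
    have hWz : volume W = 0 := by
      have h2 := (ae_restrict_iff' hA.measurableSet).mp h0
      have h3 : W ⊆ {y | ¬ (y ∈ A → ENNReal.ofReal (GC μ (fun i => (y i : ℂ))).re = (0 : (ι → ℝ) → ENNReal) y)} := by
        intro y hy
        simp only [Set.mem_ofPred_eq, not_forall]
        refine ⟨hy.1, ?_⟩
        have : 0 < ENNReal.ofReal (GC μ (fun i => (y i : ℂ))).re := ENNReal.ofReal_pos.mpr hy.2
        exact this.ne'
      exact measure_mono_null h3 h2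
    rw [hWz] at hWp
    exact lt_irrefl _ hWp
  -- identity theorem along lines
  obtain ⟨x0, hx0⟩ := hne
  have hall : ∀ x1 : ι → ℝ, GC μ (fun i => (x1 i : ℂ)) = 0 := by
    intro x1
    set φ : ℂ → ℂ := fun z => GC μ (fun i => (x0 i : ℂ) + z * ((x1 i : ℂ) - (x0 i : ℂ))) with hφ
    have hφd : Differentiable ℂ φ := by
      apply hd.comp
      rw [differentiable_pi]
      intro i
      fun_prop
    have hφa : AnalyticOnNhd ℂ φ Set.univ := hφd.differentiableOn.analyticOnNhd isOpen_univ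
    have hline : Continuous (fun t : ℝ => (fun i => x0 i + t * (x1 i - x0 i) : ι → ℝ)) := by fun_prop
    have hnear : ∀ᶠ t : ℝ in 𝓝 0, φ (t:ℂ) = 0 := by
      have h1 : ∀ᶠ t : ℝ in 𝓝 0, (fun i => x0 i + t * (x1 i - x0 i) : ι → ℝ) ∈ A := by
        apply hline.continuousAt.eventually_mem
        apply hA.mem_nhds
        simpa using hx0
      filter_upwards [h1] with t ht
      have h2 := hz _ ht
      simp only [hφ]
      rw [← h2]
      congr 1
      funext i
      push_cast; ring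
    have hfreq : ∃ᶠ z : ℂ in 𝓝[≠] 0, φ z = 0 := by
      have h1 : Tendsto (fun t : ℝ => (t : ℂ)) (𝓝[≠] 0) (𝓝[≠] 0) := by
        apply tendsto_nhdsWithin_of_tendsto_nhds_of_eventually_within
        · have := Complex.continuous_ofReal.tendsto (0:ℝ)
          rw [Complex.ofReal_zero] at this
          exact this.mono_left nhdsWithin_le_nhds
        · filter_upwards [self_mem_nhdsWithin] with t ht
          simpa using ht
      have h2 : ∃ᶠ t : ℝ in 𝓝[≠] 0, φ (t:ℂ) = 0 := (hnear.filter_mono nhdsWithin_le_nhds).frequently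
      exact h1.frequently h2
    have h3 := hφa.eqOn_zero_of_preconnected_of_frequently_eq_zero isPreconnected_univ (Set.mem_univ 0) hfreq (Set.mem_univ 1)
    simp only [hφ, one_mul, add_sub_cancel, Pi.zero_apply] at h3
    exact h3
  have hμ0 : (μ : Measure (ι → ℝ)) Set.univ = 0 := by
    rw [hμ, withDensity_apply _ MeasurableSet.univ]
    simp only [hall, Complex.zero_re, ENNReal.ofReal_zero, lintegral_zero]
  rw [measure_univ] at hμ0
  exact one_ne_zero hμ0

end Pool.Agent.H425R3.JD
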