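import Mathlib
import Pool.Agent.H425R3.JL.F3
import Pool.Agent.H425R3.JD.B3
import Pool.Agent.H425R3.JD.D2

open MeasureTheory Filter Topology
open Pool.Agent.H383.AP Pool.Agent.H383.Gauss Pool.Agent.H383.Gen
open Pool.Agent.H425R3.JL (fav cav ApU UU UU_TG RS RS_ne RS_fav AvOK AvOK_RS ApU_comp ApU_RS law law_transfer portm q)
open Pool.Agent.H452R2.Win (ApW Adw Adw_zero)

namespace Pool.Agent.H425R3.JD

open Pool.Agent.H383

variable {ι : Type*} [Fintype ι] {a : ℕ → ℝ} {φ α ε : ℝ} {X : ι → ℝ} {E : ℕ → ι → ℝ}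

lemma fav_win (k N : ℕ) (g : ℕ → ℝ) : fav (Finset.Ico k (k + N)) g = rm (fun n => g (k + n)) N := by
  unfold fav rm
  rw [Finset.sum_Ico_eq_sum_range, Nat.card_Ico, Nat.add_sub_cancel_left]

lemma cav_win (k N : ℕ) (θ : ℝ) : cav (Finset.Ico k (k + N)) (chr θ) = chr θ k * cm (chr θ) N := by
  unfold cav cm
  rw [Finset.sum_Ico_eq_sum_range, Nat.card_Ico, Nat.add_sub_cancel_left, mul_div_assoc', Finset.mul_sum]
  congr 1
  apply Finset.sum_congr rfl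
  intro n _
  unfold chr
  rw [← Complex.exp_add]
  congr 1
  push_cast; ring

/-- windows -/
def Wn (k N : ℕ → ℕ) (j : ℕ) : Finset ℕ := Finset.Ico (k j) (k j + N j)

lemma AvOK_win {k N : ℕ → ℕ} (hN : Tendsto N atTop atTop) (Γ : AddSubgroup ℝ) : AvOK Γ (Wn k N) := by
  intro θ _
  unfold Wn
  simp only [cav_win]
  by_cases hθ : ∃ l : ℤ, θ = l
  · have h1 : mc θ = 1 := Pool.Agent.H383.Gauss.mc_one_of hθ
    have h2 := chr_mean θ
    unfold HasMean at h2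
    have h3 := h2.comp hN
    refine h3.congr (fun j => ?_)
    obtain ⟨l, rfl⟩ := hθ
    have h4 : chr (l:ℝ) (k j) = 1 := by
      unfold chr
      rw [Complex.exp_eq_one_iff]
      exact ⟨l * k j, by push_cast; ring⟩
    rw [h4, one_mul]; rfl
  · have h1 : mc θ = 0 := Pool.Agent.H383.Gauss.mc_zero_of hθ
    rw [h1]
    have h2 := chr_mean θ
    unfold HasMean at h2
    rw [h1] at h2
    have h3 := h2.comp hN
    rw [tendsto_zero_iff_norm_tendsto_zero] at h3 ⊢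
    refine h3.congr (fun j => ?_)
    rw [norm_mul, norm_chr, one_mul]; rfl

lemma ApU_win (hW : ∀ i, ApW (Adw ε) a φ (fun n => E n i) α (X i)) {k N : ℕ → ℕ} (hN : Tendsto N atTop atTop)
    (hk : ∀ j, Adw ε (N j) (k j)) : ApU (UU (fun _ => a) (fun _ => φ) (fun _ => α) X) E (Wn k N) := by
  apply ApU_comp
  intro i η hη
  obtain ⟨M0, hM0⟩ := hW i η hη
  refine ⟨M0, fun M hM => ?_⟩
  obtain ⟨N0, hN0⟩ := hM0 M hM
  obtain ⟨j0, hj0⟩ := eventually_atTop.mp (hN.eventually_ge_atTop N0)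
  refine ⟨j0, fun j hj => ?_⟩
  unfold Wn
  rw [fav_win]
  exact hN0 (N j) (hj0 j hj) (k j) (hk j)

lemma Ap_of_ApW (hε : 0 < ε) {e : ℕ → ℝ} {X : ℝ} (hW : ApW (Adw ε) a φ e α X) : Ap a φ e α X := by
  intro η hη
  obtain ⟨M0, hM0⟩ := hW η hη
  refine ⟨M0, fun M hM => ?_⟩
  obtain ⟨N0, hN0⟩ := hM0 M hM
  refine ⟨N0, fun N hN => ?_⟩
  have := hN0 N hN 0 (Adw_zero hε N)
  simpa using this

lemma Wn_ne {k N : ℕ → ℕ} (hN : ∀ j, 1 ≤ N j) (j : ℕ) : (Wn k N j).Nonempty := by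
  unfold Wn
  rw [Finset.nonempty_Ico]
  have := hN j
  omega

/-- uniform convergence in windows from sequential convergence -/
lemma win_unif {F : ℕ → ℕ → ℝ} {L ε : ℝ}
    (h : ∀ k N : ℕ → ℕ, Tendsto N atTop atTop → (∀ j, 1 ≤ N j) → (∀ j, Adw ε (N j) (k j)) → Tendsto (fun j => F (k j) (N j)) atTop (𝓝 L))
    {η : ℝ} (hη : 0 < η) : ∃ N0 : ℕ, ∀ N : ℕ, N0 ≤ N → ∀ k : ℕ, Adw ε N k → |F k N - L| ≤ η := by
  by_contra hcon
  push Not at hcon
  choose N hN k hk hbad using fun j : ℕ => hcon (j+1)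
  have h1 : Tendsto N atTop atTop := tendsto_atTop_mono (fun j => (Nat.le_succ j).trans (hN j)) tendsto_id
  have h2 := h k N h1 (fun j => by have := hN j; omega) hk
  rw [Metric.tendsto_atTop] at h2
  obtain ⟨j, hj⟩ := h2 η hη
  have h3 := hj j le_rfl
  rw [Real.dist_eq] at h3
  have h4 := hbad j
  linarith

/-- data for the joint law in windows -/
structure DataW (Ex : ℝ → ℝ) (af : ℕ → ℝ) (φ : ℝ) (al : ℝ → ℝ) (X : ℝ → ℝ → ℝ) : Prop where
  bk : BK af (7/10)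
  lr : LR af
  pos : ∀ a, 0 < a → 0 < al a
  inj : ∀ a, 0 < a → Function.Injective (X a)
  apw : ∀ (a b c ε : ℝ), 0 < a → 0 < ε → (∀ n : ℕ, 0 < a * (n:ℝ)^2 + b * n + c) →
    ApW (Adw ε) af φ (fun n : ℕ => Ex (a * (n:ℝ)^2 + b * n + c)) (al a) (X a b)

open Classical in
theorem final_joint {Ex : ℝ → ℝ} {af : ℕ → ℝ} {φ : ℝ} {al : ℝ → ℝ} {X : ℝ → ℝ → ℝ} (hD : DataW Ex af φ al X)
    {k : ℕ} {a : ℝ} (ha : 0 < a) (b c : Fin k → ℝ) (hb : Function.Injective b)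
    (hP : ∀ i, ∀ n : ℕ, 0 < a * (n:ℝ)^2 + b i * n + c i) :
    ∃ (μ : ProbabilityMeasure (Fin k → ℝ)) (g : (Fin k → ℂ) → ℂ),
      Differentiable ℂ g ∧
      (∀ x : Fin k → ℝ, 0 ≤ (g (fun i => (x i : ℂ))).re ∧ (g (fun i => (x i : ℂ))).im = 0) ∧
      (μ : Measure (Fin k → ℝ)) = volume.withDensity (fun x : Fin k → ℝ => ENNReal.ofReal (g (fun i => (x i : ℂ))).re) ∧
      (∀ A : Set (Fin k → ℝ), IsOpen A → A.Nonempty → 0 < (μ : Measure (Fin k → ℝ)) A) ∧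
      Integrable (fun x : Fin k → ℝ => ∑ i, x i ^ 2) (μ : Measure (Fin k → ℝ)) ∧
      (∀ f : (Fin k → ℝ) → ℝ, Continuous f → (∃ C : ℝ, ∀ x, |f x| ≤ C * (1 + ∑ i, x i ^ 2)) →
        ∀ ε : ℝ, 0 < ε → ∀ η : ℝ, 0 < η → ∃ N₀ : ℕ, ∀ N : ℕ, N₀ ≤ N → ∀ m : ℕ, (m:ℝ) ^ (1/2 + ε) ≤ N →
        |(∑ n ∈ Finset.Ico m (m + N), f (fun i => Ex (a * (n:ℝ)^2 + b i * n + c i))) / N
          - ∫ x, f x ∂(μ : Measure (Fin k → ℝ))| ≤ η) ∧
      (∀ A : Set (Fin k → ℝ), volume (frontier A) = 0 →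
        ∀ ε : ℝ, 0 < ε → ∀ η : ℝ, 0 < η → ∃ N₀ : ℕ, ∀ N : ℕ, N₀ ≤ N → ∀ m : ℕ, (m:ℝ) ^ (1/2 + ε) ≤ N →
        |(((Finset.Ico m (m + N)).filter (fun n : ℕ => (fun i => Ex (a * (n:ℝ)^2 + b i * n + c i)) ∈ A)).card : ℝ) / N
          - (μ : Measure (Fin k → ℝ)).real A| ≤ η) := by
  set E : ℕ → Fin k → ℝ := fun n i => Ex (a * (n:ℝ)^2 + b i * n + c i) with hE
  have hAp : ∀ i, Ap af φ (fun n => E n i) (al a) (X a (b i)) := fun i =>
    Ap_of_ApW (ε := 1) one_pos (hD.apw a (b i) (c i) 1 ha one_pos (hP i))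
  have hU : ∀ M i, (fun n => ((UU (fun _ : Fin k => af) (fun _ => φ) (fun _ => al a) (fun i => X a (b i)) M n i : ℝ) : ℂ)) ∈ JL.TG ⊤ :=
    fun M i => UU_TG (a := fun _ => af) (φ := fun _ => φ) (α := fun _ => al a) (X := fun i => X a (b i)) (fun _ _ => AddSubgroup.mem_top _) M i
  have h1 : ApU (UU (fun _ : Fin k => af) (fun _ => φ) (fun _ => al a) (fun i => X a (b i))) E RS :=
    ApU_RS (a := fun _ => af) (φ := fun _ => φ) (α := fun _ => al a) (X := fun i => X a (b i)) hAp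
  obtain ⟨μ, hμ1, hμ2⟩ := law hU RS_ne (AvOK_RS ⊤) h1
  have hLaw : LawV E μ := by
    intro f hf hB
    obtain ⟨B, hB⟩ := hB
    have h2 := hμ2 f hf ⟨B, fun x => by
      have h3 := hB x
      have h4 : 0 ≤ B := (abs_nonneg _).trans h3
      nlinarith [JL.q_nonneg x]⟩
    simp only [RS_fav] at h2
    rwa [tendsto_add_atTop_iff_nat 1 (f := fun j => rm (fun n => f (E n)) j)] at h2
  obtain ⟨C, c', hC, hc', hdec⟩ := cf_decay (φ := φ) (hD.pos a ha) hAp hLaw hD.bk hD.lr ((hD.inj a ha).comp hb)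
  obtain ⟨g, g1, g2, g3, g4⟩ := density (μ := μ) hc' (by norm_num : (1:ℝ) < 9/7) hC.le hdec
  refine ⟨μ, g, g1, g2, g3, g4, hμ1, ?_, ?_⟩
  · intro f hf hC ε hε η hη
    have key := win_unif (ε := ε) (F := fun m N => (∑ n ∈ Finset.Ico m (m + N), f (E n)) / N)
      (L := ∫ x, f x ∂(μ : Measure (Fin k → ℝ))) (fun m N hN hN1 hk => by
        have hApw := ApU_win (E := E) (fun i => hD.apw a (b i) (c i) ε ha hε (hP i)) hN hk
        have h2 := law_transfer hU RS_ne (AvOK_RS ⊤) h1 (Wn_ne hN1) (AvOK_win hN ⊤) hApw hf hC (hμ2 f hf hC)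
        refine h2.congr (fun j => ?_)
        unfold fav Wn
        rw [Nat.card_Ico, Nat.add_sub_cancel_left]) hη
    exact key
  · intro A hA ε hε η hη
    have hA' : (μ : Measure (Fin k → ℝ)) (frontier A) = 0 := by
      rw [g3]
      exact withDensity_absolutelyContinuous _ _ hA
    have key := win_unif (ε := ε) (F := fun m N => (((Finset.Ico m (m + N)).filter (fun n : ℕ => E n ∈ A)).card : ℝ) / N)
      (L := (μ : Measure (Fin k → ℝ)).real A) (fun m N hN hN1 hk => by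
        have hApw := ApU_win (E := E) (fun i => hD.apw a (b i) (c i) ε ha hε (hP i)) hN hk
        have h2 := portm (Wn_ne hN1) (e := E) (μ := μ) (fun f hf hC =>
          law_transfer hU RS_ne (AvOK_RS ⊤) h1 (Wn_ne hN1) (AvOK_win hN ⊤) hApw hf hC (hμ2 f hf hC)) hA'
        refine h2.congr (fun j => ?_)
        unfold Wn
        rw [Nat.card_Ico, Nat.add_sub_cancel_left]) hη
    exact key

end Pool.Agent.H425R3.JD
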