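import Mathlib
import Pool.Agent.H425R3.JD.W1
import Pool.Agent.H452R2.Win.V8

open MeasureTheory Filter Topology
open Pool.Agent.H387R2.Vor
open Pool.Agent.H383.AP Pool.Agent.H383.Gauss Pool.Agent.H383.Gen Pool.Agent.H383.Div Pool.Agent.H383.Circ
open Pool.Agent.H425R3.JL (Ec Edv Ec_eq Edv_eq)
open Pool.Agent.H452R2.Win (ApW Adw Adw_zero ag_Bdw ad_Bdw2 circ_ApW div_ApW)

namespace Pool.Agent.H425R3.JD

open Pool.Agent.H383

lemma ag_LR : LR ag := by
  refine ⟨1 / Real.pi, by positivity, fun m hm => le_of_eq ?_⟩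
  have hm0 : (0:ℝ) < m := by exact_mod_cast hm
  unfold ag
  have h1 : (√(m:ℝ)) ^ (-(3/2):ℝ) = (m:ℝ) ^ (-(3/4):ℝ) := by
    rw [Real.sqrt_eq_rpow, ← Real.rpow_mul hm0.le]; norm_num
  rw [h1]; ring

lemma ad_LR : LR ad := by
  refine ⟨1 / (4 * (Real.pi * √2)), by positivity, fun m hm => ?_⟩
  have hm0 : (0:ℝ) < m := by exact_mod_cast hm
  unfold ad
  have h1 : rA m ≤ 4 * dv m := by
    unfold rA
    have := card_A_le m hm
    have h2 : ((A m).ncard : ℝ) ≤ 4 * m.divisors.card := by exact_mod_cast this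
    exact h2
  have h2 : 0 ≤ (m:ℝ) ^ (-(3/4):ℝ) := by positivity
  have h3 : (0:ℝ) < Real.pi * √2 := by positivity
  calc 1 / (4 * (Real.pi * √2)) * (rA m * (m:ℝ) ^ (-(3/4):ℝ)) ≤ 1 / (4 * (Real.pi * √2)) * ((4 * dv m) * (m:ℝ) ^ (-(3/4):ℝ)) := by gcongr
    _ = dv m * (m:ℝ) ^ (-(3/4):ℝ) * (1 / (Real.pi * √2)) := by field_simp

theorem circ_dataW : DataW Ec ag (3 * Real.pi/4) (fun a => √a) (fun a b => b / (2 * √a)) where
  bk := BK_of ag_Bdw (by norm_num)
  lr := ag_LR
  pos := fun a ha => Real.sqrt_pos.mpr ha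
  inj := by
    intro a ha x y h
    have hsa : 0 < √a := Real.sqrt_pos.mpr ha
    simp only at h
    field_simp at h
    exact h
  apw := by
    intro a b c ε ha hε hP
    have key := circ_ApW ha (fun n => (hP n).le) hε (b := b) (c := c)
    have e : (fun n : ℕ => En (√(a * (n:ℝ)^2 + b * n + c))) = fun n : ℕ => Ec (a * (n:ℝ)^2 + b * n + c) := by
      funext n; exact Ec_eq (hP n).le
    rw [e] at key
    exact key

theorem div_dataW : DataW Edv ad (Real.pi/4) (fun a => 2 * √a) (fun a b => b / √a) where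
  bk := BK_of ad_Bdw2 (by norm_num)
  lr := ad_LR
  pos := fun a ha => mul_pos (by norm_num) (Real.sqrt_pos.mpr ha)
  inj := by
    intro a ha x y h
    have hsa : 0 < √a := Real.sqrt_pos.mpr ha
    simp only at h
    field_simp at h
    exact h
  apw := by
    intro a b c ε ha hε hP
    have key := div_ApW vor ha (fun n => (hP n).le) hε (b := b) (c := c)
    have e : (fun n : ℕ => Ed (√(a * (n:ℝ)^2 + b * n + c))) = fun n : ℕ => Edv (a * (n:ℝ)^2 + b * n + c) := by
      funext n; exact Edv_eq (hP n).le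
    rw [e] at key
    exact key

end Pool.Agent.H425R3.JD
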